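import Pool.Agent.P.MP_c18ee8_co.Defs

namespace Pool.Agent.P.MP_c18ee8_co

open Finset

/-- the four line coordinates -/
def phi (k : Fin 4) (p : ℤ × ℤ) : ℤ := ![p.1, p.2, p.1 - p.2, p.1 + p.2] k

/-- ranges of the line coordinates on the board -/
noncomputable def rng (n : ℕ) (k : Fin 4) : Finset ℤ :=
  ![Ico 0 (n : ℤ), Ico 0 (n : ℤ), Ioo (-(n : ℤ)) n, Ico 0 (2 * (n : ℤ) - 1)] k

def emb {n : ℕ} (p : Fin n × Fin n) : ℤ × ℤ := (((p.1 : ℕ) : ℤ), ((p.2 : ℕ) : ℤ))

theorem emb_inj {n : ℕ} {p q : Fin n × Fin n} (h : emb p = emb q) : p = q := by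
  simp only [emb, Prod.mk.injEq, Nat.cast_inj] at h
  exact Prod.ext (Fin.ext h.1) (Fin.ext h.2)

theorem phi_two {j k : Fin 4} (hjk : j ≠ k) {p q : ℤ × ℤ} (hj : phi j p = phi j q)
    (hk : phi k p = phi k q) : p = q := by
  obtain ⟨a, b⟩ := p
  obtain ⟨c, d⟩ := q
  fin_cases j <;> fin_cases k <;> simp [phi] at hjk hj hk ⊢ <;> omega

theorem phi_mem {n : ℕ} (k : Fin 4) (p : Fin n × Fin n) : phi k (emb p) ∈ rng n k := by
  obtain ⟨⟨a, ha⟩, ⟨b, hb⟩⟩ := p
  fin_cases k <;> simp [phi, emb, rng] <;> omega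

theorem mem_closed {n : ℕ} (v w : Fin n × Fin n) :
    w ∈ insert v ((queensGraph n).neighborSet v) ↔ ∃ k, phi k (emb v) = phi k (emb w) := by
  obtain ⟨⟨a, ha⟩, ⟨b, hb⟩⟩ := v
  obtain ⟨⟨c, hc⟩, ⟨d, hd⟩⟩ := w
  simp only [Set.mem_insert_iff, SimpleGraph.mem_neighborSet, queensGraph,
    SimpleGraph.fromRel_adj, Fin.exists_fin_succ, phi, emb, Prod.mk.injEq, Fin.mk.injEq, ne_eq,
    abs_eq_abs]
  simp
  omega

theorem card_rng (n : ℕ) (hn : 1 ≤ n) (k : Fin 4) :
    (rng n k).card = ![n, n, 2 * n - 1, 2 * n - 1] k := by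
  fin_cases k <;> simp [rng] <;> omega

theorem structure_lemma {n : ℕ} (hn : 1 ≤ n) (S : Finset (Fin n × Fin n))
    (hS : IsIrredundant (queensGraph n) S) :
    ∃ (O E : Fin 4 → Finset ℤ) (P N : Fin 4 → Finset (ℤ × ℤ)) (t : ℕ),
      t = ∑ k, (O k).card + ∑ k, (E k).card ∧ S.card + t + 2 = 6 * n ∧
      (∀ k, ∀ p ∈ P k, ∀ q ∈ P k, phi k p = phi k q → p = q) ∧
      (∀ k, ∀ p ∈ N k, ∀ q ∈ N k, phi k p = phi k q → p = q) ∧
      (∀ k j, j ≠ k → ∀ p ∈ P k, phi j p ∈ O j) ∧
      (∀ k j, j ≠ k → ∀ p ∈ N k, phi j p ∈ E j) ∧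
      (∀ k, (rng n k).card ≤ (P k).card + t) ∧
      (∀ k, (rng n k).card ≤ (N k).card + t) := by
  classical
  have h1 : ∀ v : Fin n × Fin n, ∃ (w : Fin n × Fin n) (k : Fin 4), v ∈ S →
      (phi k (emb v) = phi k (emb w) ∧ ∀ u ∈ S, u ≠ v → ∀ j, phi j (emb u) ≠ phi j (emb w)) := by
    intro v
    by_cases hv : v ∈ S
    · obtain ⟨w, hw, hw'⟩ := hS v hv
      obtain ⟨k, hk⟩ := (mem_closed v w).1 hw
      refine ⟨w, k, fun _ => ⟨hk, fun u hu huv j hj => hw' u hu huv ((mem_closed u w).2 ⟨j, hj⟩)⟩⟩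
    · exact ⟨v, 0, fun h => absurd h hv⟩
  choose w kk hw using h1
  let Sk : Fin 4 → Finset (Fin n × Fin n) := fun k => S.filter fun v => kk v = k
  let O : Fin 4 → Finset ℤ := fun k => (S.filter fun v => kk v ≠ k).image fun v => phi k (emb v)
  let E : Fin 4 → Finset ℤ := fun k => rng n k \ S.image fun v => phi k (emb v)
  let Nk : Fin 4 → Finset (Fin n × Fin n) := fun k => (Sk k).filter fun v => w v ≠ v
  -- a queen is alone on its designated line
  have alone : ∀ v ∈ S, ∀ u ∈ S, phi (kk v) (emb u) = phi (kk v) (emb v) → u = v := by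
    intro v hv u hu h
    by_contra hne
    exact (hw v hv).2 u hu hne _ (h.trans (hw v hv).1)
  have hcard : ∀ k, (rng n k).card = (Sk k).card + (O k).card + (E k).card := by
    intro k
    have hsub : (S.image fun v => phi k (emb v)) ⊆ rng n k := by
      intro x hx
      obtain ⟨v, _, rfl⟩ := mem_image.1 hx
      exact phi_mem k v
    have e1 : (E k).card + (S.image fun v => phi k (emb v)).card = (rng n k).card :=
      card_sdiff_add_card_eq_card hsub
    have e2 : (S.image fun v => phi k (emb v)) =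
        ((Sk k).image fun v => phi k (emb v)) ∪ O k := by
      rw [← image_union]
      congr 1
      exact (filter_union_filter_not_eq _ _).symm
    have e3 : Disjoint ((Sk k).image fun v => phi k (emb v)) (O k) := by
      rw [disjoint_left]
      intro x hx hx'
      obtain ⟨v, hv, rfl⟩ := mem_image.1 hx
      obtain ⟨u, hu, he⟩ := mem_image.1 hx'
      obtain ⟨hv1, hv2⟩ := mem_filter.1 hv
      obtain ⟨hu1, hu2⟩ := mem_filter.1 hu
      have := alone v hv1 u hu1 (by rw [hv2]; exact he)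
      exact hu2 (this ▸ hv2)
    have e4 : ((Sk k).image fun v => phi k (emb v)).card = (Sk k).card := by
      apply card_image_of_injOn
      intro v hv u hu he
      obtain ⟨hv1, hv2⟩ := mem_filter.1 hv
      obtain ⟨hu1, hu2⟩ := mem_filter.1 hu
      exact alone u hu1 v hv1 (by rw [hu2]; exact he)
    rw [e2, card_union_of_disjoint e3, e4] at e1
    omega
  have hsum : S.card = ∑ k, (Sk k).card :=
    card_eq_sum_card_fiberwise (f := kk) (t := univ) (fun _ _ => mem_univ _)
  have hiso : ∀ k j, j ≠ k → (Sk k).card ≤ (Nk k).card + (O j).card := by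
    intro k j hjk
    have e1 := card_filter_add_card_filter_not (s := Sk k) (fun v => w v ≠ v)
    have e2 : ((Sk k).filter fun v => ¬ w v ≠ v).card ≤ (O j).card := by
      apply card_le_card_of_injOn (fun v => phi j (emb v))
      · intro v hv
        simp only [coe_filter, Set.mem_ofPred_eq, Sk, mem_filter] at hv
        apply mem_coe.2
        apply mem_image_of_mem (fun v => phi j (emb v))
        exact mem_filter.2 ⟨hv.1.1, by rw [hv.1.2]; exact hjk.symm⟩
      · intro v hv u hu he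
        simp only [coe_filter, Set.mem_ofPred_eq, Sk, mem_filter, not_not] at hv hu
        by_contra hne
        exact (hw u hu.1.1).2 v hv.1.1 hne j (by rw [hu.2]; exact he)
    have : (Nk k).card = ((Sk k).filter fun v => w v ≠ v).card := rfl
    omega
  have winj : ∀ k, ∀ v ∈ Nk k, ∀ u ∈ Nk k, phi k (emb (w v)) = phi k (emb (w u)) → v = u := by
    intro k v hv u hu he
    obtain ⟨hv0, -⟩ := mem_filter.1 hv
    obtain ⟨hu0, -⟩ := mem_filter.1 hu
    obtain ⟨hv1, hv2⟩ := mem_filter.1 hv0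
    obtain ⟨hu1, hu2⟩ := mem_filter.1 hu0
    apply alone u hu1 v hv1
    have a1 := (hw v hv1).1
    have a2 := (hw u hu1).1
    rw [hv2] at a1
    rw [hu2] at a2 ⊢
    rw [a1, a2, he]
  refine ⟨O, E, fun k => (Sk k).image emb, fun k => (Nk k).image fun v => emb (w v),
    ∑ k, (O k).card + ∑ k, (E k).card, rfl, ?_, ?_, ?_, ?_, ?_, ?_, ?_⟩
  · have h0 := hcard 0
    have h1 := hcard 1
    have h2 := hcard 2
    have h3 := hcard 3
    rw [card_rng n hn] at h0 h1 h2 h3
    simp only [Fin.sum_univ_four] at hsum ⊢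
    simp at h0 h1 h2 h3
    omega
  · intro k p hp q hq he
    obtain ⟨v, hv, rfl⟩ := mem_image.1 hp
    obtain ⟨u, hu, rfl⟩ := mem_image.1 hq
    obtain ⟨hv1, hv2⟩ := mem_filter.1 hv
    obtain ⟨hu1, hu2⟩ := mem_filter.1 hu
    rw [alone u hu1 v hv1 (by rw [hu2]; exact he)]
  · intro k p hp q hq he
    obtain ⟨v, hv, rfl⟩ := mem_image.1 hp
    obtain ⟨u, hu, rfl⟩ := mem_image.1 hq
    rw [winj k v hv u hu he]
  · intro k j hjk p hp
    obtain ⟨v, hv, rfl⟩ := mem_image.1 hp
    obtain ⟨hv1, hv2⟩ := mem_filter.1 hv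
    apply mem_image_of_mem (fun v => phi j (emb v))
    exact mem_filter.2 ⟨hv1, by rw [hv2]; exact hjk.symm⟩
  · intro k j hjk p hp
    obtain ⟨v, hv, rfl⟩ := mem_image.1 hp
    obtain ⟨hv0, hne⟩ := mem_filter.1 hv
    obtain ⟨hv1, hv2⟩ := mem_filter.1 hv0
    refine mem_sdiff.2 ⟨phi_mem j _, fun hx => ?_⟩
    obtain ⟨u, hu, he⟩ := mem_image.1 hx
    by_cases huv : u = v
    · subst huv
      have a1 := (hw u hu).1
      rw [hv2] at a1
      exact hne (emb_inj (phi_two hjk he a1)).symm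
    · exact (hw v hv1).2 u hu huv j he
  · intro k
    rw [card_image_of_injective _ (fun _ _ h => emb_inj h), hcard k]
    have a1 : (O k).card ≤ ∑ k, (O k).card :=
      single_le_sum (f := fun k => (O k).card) (fun _ _ => Nat.zero_le _) (mem_univ k)
    have a2 : (E k).card ≤ ∑ k, (E k).card :=
      single_le_sum (f := fun k => (E k).card) (fun _ _ => Nat.zero_le _) (mem_univ k)
    omega
  · intro k
    have : ((Nk k).image fun v => emb (w v)).card = (Nk k).card := by
      apply card_image_of_injOn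
      intro v hv u hu he
      exact winj k v hv u hu (by simp only at he; rw [he])
    rw [this, hcard k]
    have a2 : (E k).card ≤ ∑ k, (E k).card :=
      single_le_sum (f := fun k => (E k).card) (fun _ _ => Nat.zero_le _) (mem_univ k)
    have a3 := hiso k (k + 1) (by fin_cases k <;> simp)
    have a1 : (O k).card + (O (k + 1)).card ≤ ∑ k, (O k).card := by
      simp only [Fin.sum_univ_four]
      fin_cases k <;> simp <;> omega
    omega

theorem bddAbove_IR {V : Type} [Fintype V] (G : SimpleGraph V) :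
    BddAbove {k : ℕ | ∃ S : Finset V, IsIrredundant G S ∧ S.card = k} := by
  refine ⟨Fintype.card V, ?_⟩
  rintro k ⟨S, -, rfl⟩
  exact card_le_univ S

theorem exists_IR {V : Type} [Fintype V] (G : SimpleGraph V) :
    ∃ S : Finset V, IsIrredundant G S ∧ S.card = upperIR G := by
  have := Nat.sSup_mem (s := {k : ℕ | ∃ S : Finset V, IsIrredundant G S ∧ S.card = k})
    ⟨0, ∅, fun v hv => absurd hv (notMem_empty v), rfl⟩ (bddAbove_IR G)
  exact this

theorem le_IR {V : Type} [Fintype V] (G : SimpleGraph V) (S : Finset V)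
    (hS : IsIrredundant G S) : S.card ≤ upperIR G :=
  le_csSup (bddAbove_IR G) ⟨S, hS, rfl⟩

end Pool.Agent.P.MP_c18ee8_co
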