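import Pool.Agent.K.MP_c18ee8_co.C1

-- part Pool.Agent.P.MP_c18ee8_co.Digits
section

namespace Pool.Agent.P.MP_c18ee8_co

open Finset

/-- digitwise extension of a one-digit function, with top digit sent to zero -/
def digU (b : ℕ) (hb : 2 ≤ b) (u0 : ℕ → ℕ) (e : ℕ) : ℕ :=
  if _h : e < b then 0 else u0 (e % b) + b * digU b hb u0 (e / b)
termination_by e
decreasing_by exact Nat.div_lt_self (by omega) (by omega)

theorem digU_lt (b : ℕ) (hb : 2 ≤ b) (u0 : ℕ → ℕ) (h0 : ∀ r, u0 r < b) (e : ℕ) :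
    1 ≤ e → digU b hb u0 e + 1 ≤ e := by
  induction e using Nat.strong_induction_on with
  | _ e ih =>
    intro he
    rw [digU]
    split_ifs with h
    · omega
    · have h1 : 1 ≤ e / b := (Nat.le_div_iff_mul_le (by omega)).2 (by omega)
      have h2 := ih (e / b) (Nat.div_lt_self (by omega) (by omega)) h1
      have h3 := h0 (e % b)
      have h4 : b * (digU b hb u0 (e / b) + 1) ≤ b * (e / b) := Nat.mul_le_mul_left _ h2
      have h5 := Nat.mul_div_le e b
      have h6 : b * (digU b hb u0 (e / b) + 1) = b * digU b hb u0 (e / b) + b := by ring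
      omega

theorem digU_le (b : ℕ) (hb : 2 ≤ b) (u0 : ℕ → ℕ) (h0 : ∀ r, u0 r < b) (e : ℕ) :
    digU b hb u0 e ≤ e := by
  rcases Nat.eq_zero_or_pos e with rfl | h
  · rw [digU]; simp; omega
  · have := digU_lt b hb u0 h0 e h
    omega

theorem digit_sets (b : ℕ) (hb : 2 ≤ b) (u0 : ℕ → ℕ) (X : Finset ℤ) (M : ℕ) (hM : 2 ≤ M)
    (hXM : X.card ≤ M)
    (hX : ∀ r, r < b → (u0 r : ℤ) ∈ X ∧ (r + u0 r : ℤ) ∈ X ∧ (r - u0 r : ℤ) ∈ X) (k : ℕ) :
    ∃ B : Finset ℤ, B.card + b ≤ 2 * b * M ^ k ∧ ∀ e, e < b ^ (k + 1) →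
      (digU b hb u0 e : ℤ) ∈ B ∧ (e + digU b hb u0 e : ℤ) ∈ B ∧
        (e - digU b hb u0 e : ℤ) ∈ B := by
  induction k with
  | zero =>
    refine ⟨Ico 0 b, by simp; omega, fun e he => ?_⟩
    have he' : e < b := by simpa using he
    rw [digU, dif_pos he']
    simp
    omega
  | succ k ih =>
    obtain ⟨B, hB, hm⟩ := ih
    refine ⟨Ico 0 b ∪ (X ×ˢ B).image fun q => q.1 + b * q.2, ?_, fun e he => ?_⟩
    · have h1 := card_union_le (Ico (0 : ℤ) b) ((X ×ˢ B).image fun q => q.1 + b * q.2)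
      have h2 : ((X ×ˢ B).image fun q : ℤ × ℤ => q.1 + b * q.2).card ≤ M * B.card := by
        refine card_image_le.trans ?_
        rw [card_product]
        exact Nat.mul_le_mul_right _ hXM
      have h3 : (Ico (0 : ℤ) b).card = b := by simp
      have h4 : M * (B.card + b) ≤ M * (2 * b * M ^ k) := Nat.mul_le_mul_left _ hB
      have h5 : 2 * b ≤ M * b := Nat.mul_le_mul_right _ hM
      have h6 : M * (2 * b * M ^ k) = 2 * b * M ^ (k + 1) := by ring
      have h7 : M * (B.card + b) = M * B.card + M * b := by ring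
      omega
    · rw [digU]
      split_ifs with h
      · simp only [mem_union, mem_Ico]
        refine ⟨Or.inl ?_, Or.inl ?_, Or.inl ?_⟩ <;> omega
      · have h1 : e / b < b ^ (k + 1) := by
          apply Nat.div_lt_of_lt_mul
          rw [pow_succ] at he
          linarith [Nat.mul_comm b (b ^ (k + 1))]
        obtain ⟨a1, a2, a3⟩ := hm _ h1
        obtain ⟨c1, c2, c3⟩ := hX (e % b) (Nat.mod_lt _ (by omega))
        have he2 : (e : ℤ) = ((e % b : ℕ) : ℤ) + b * ((e / b : ℕ) : ℤ) := by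
          exact_mod_cast (Nat.mod_add_div e b).symm
        refine ⟨mem_union_right _ (mem_image.2 ⟨(_, _), mem_product.2 ⟨c1, a1⟩, ?_⟩),
          mem_union_right _ (mem_image.2 ⟨(_, _), mem_product.2 ⟨c2, a2⟩, ?_⟩),
          mem_union_right _ (mem_image.2 ⟨(_, _), mem_product.2 ⟨c3, a3⟩, ?_⟩)⟩
        · simp only [Nat.cast_add, Nat.cast_mul]
        · simp only [Nat.cast_add, Nat.cast_mul]
          linarith [mul_add (b : ℤ) ((e / b : ℕ) : ℤ) (digU b hb u0 (e / b) : ℤ)]
        · simp only [Nat.cast_add, Nat.cast_mul]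
          linarith [mul_sub (b : ℤ) ((e / b : ℕ) : ℤ) (digU b hb u0 (e / b) : ℤ)]

theorem lower_of_digit (b : ℕ) (hb : 2 ≤ b) (u0 : ℕ → ℕ) (h0 : ∀ r, u0 r < b) (X : Finset ℤ)
    (M : ℕ) (hM : 2 ≤ M) (hXM : X.card ≤ M)
    (hX : ∀ r, r < b → (u0 r : ℤ) ∈ X ∧ (r + u0 r : ℤ) ∈ X ∧ (r - u0 r : ℤ) ∈ X)
    (θ : ℝ) (hθ : 0 ≤ θ) (hMb : (M : ℝ) ≤ (b : ℝ) ^ θ) :
    ∃ C : ℝ, ∀ n : ℕ, 1 ≤ n → 6 * (n : ℝ) - C * (n : ℝ) ^ θ ≤ upperIR (queensGraph n) := by
  refine ⟨7300 * (2 * b) + 74, fun n hn => ?_⟩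
  obtain ⟨B, hB, hm⟩ := digit_sets b hb u0 X M hM hXM hX (Nat.log b n)
  have h1 : n < b ^ (Nat.log b n + 1) := Nat.lt_pow_succ_log_self (by omega) n
  have h2 : b ^ Nat.log b n ≤ n := Nat.pow_log_le_self b (by omega)
  have h3 := board_lower (n := n) (digU b hb u0) (digU_le b hb u0 h0) B
    (fun e he => hm e (he.trans h1))
  have h3' : 6 * (n : ℝ) ≤ upperIR (queensGraph n) + 7300 * B.card + 74 := by exact_mod_cast h3
  have hB' : (B.card : ℝ) ≤ 2 * b * (M : ℝ) ^ Nat.log b n := by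
    have : B.card ≤ 2 * b * M ^ Nat.log b n := by omega
    exact_mod_cast this
  have h4 : (M : ℝ) ^ Nat.log b n ≤ (n : ℝ) ^ θ := by
    calc (M : ℝ) ^ Nat.log b n ≤ ((b : ℝ) ^ θ) ^ Nat.log b n := by gcongr
      _ = (((b ^ Nat.log b n : ℕ) : ℝ)) ^ θ := by
        rw [← Real.rpow_natCast, ← Real.rpow_mul (by positivity), mul_comm,
          Real.rpow_mul (by positivity), Real.rpow_natCast]
        push_cast; rfl
      _ ≤ (n : ℝ) ^ θ := by
        apply Real.rpow_le_rpow (by positivity) (by exact_mod_cast h2) hθ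
  have h5 : (1 : ℝ) ≤ (n : ℝ) ^ θ := Real.one_le_rpow (by exact_mod_cast hn) hθ
  have h6 : (B.card : ℝ) ≤ 2 * b * (n : ℝ) ^ θ := hB'.trans (by gcongr)
  nlinarith

end Pool.Agent.P.MP_c18ee8_co
end

-- part Pool.Agent.P.MP_c18ee8_co.Cover
section

namespace Pool.Agent.P.MP_c18ee8_co

open Finset

theorem cover_step {H : Type*} [AddCommGroup H] [Fintype H] [DecidableEq H] (D U : Finset H)
    (hD : Fintype.card H ≤ 8 * D.card) :
    ∃ s : H, 8 * (U.filter fun e => e - s ∉ D).card ≤ 7 * U.card := by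
  have hsum : ∑ s : H, (U.filter fun e => e - s ∈ D).card = U.card * D.card := by
    simp only [card_filter]
    rw [sum_comm]
    have : ∀ e ∈ U, (∑ s : H, if e - s ∈ D then 1 else 0) = D.card := by
      intro e _
      rw [← card_filter]
      apply card_nbij' (fun s => e - s) (fun s => e - s)
      · intro s hs; simpa using hs
      · intro s hs; simpa using hs
      · intro s _; simp
      · intro s _; simp
    rw [sum_congr rfl this, sum_const, smul_eq_mul]
  have : ∃ s ∈ (univ : Finset H), U.card ≤ 8 * (U.filter fun e => e - s ∈ D).card := by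
    apply exists_le_of_sum_le univ_nonempty
    rw [← mul_sum, hsum, sum_const, smul_eq_mul, card_univ]
    calc Fintype.card H * U.card ≤ 8 * D.card * U.card := Nat.mul_le_mul_right _ hD
      _ = _ := by ring
  obtain ⟨s, -, hs⟩ := this
  refine ⟨s, ?_⟩
  have := card_filter_add_card_filter_not (s := U) (fun e => e - s ∈ D)
  omega

theorem cover_iter {H : Type*} [AddCommGroup H] [Fintype H] [DecidableEq H] (D : Finset H)
    (hD : Fintype.card H ≤ 8 * D.card) (j : ℕ) :
    ∃ T : Finset H, T.card ≤ j ∧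
      8 ^ j * (univ.filter fun e => ∀ s ∈ T, e - s ∉ D).card ≤ 7 ^ j * Fintype.card H := by
  induction j with
  | zero => exact ⟨∅, le_rfl, by simp⟩
  | succ j ih =>
    obtain ⟨T, h1, h2⟩ := ih
    obtain ⟨s, hs⟩ := cover_step D (univ.filter fun e => ∀ s ∈ T, e - s ∉ D) hD
    refine ⟨insert s T, (card_insert_le _ _).trans (by omega), ?_⟩
    have e : (univ.filter fun e => ∀ s' ∈ insert s T, e - s' ∉ D) =
        (univ.filter fun e => ∀ s ∈ T, e - s ∉ D).filter fun e => e - s ∉ D := by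
      ext e; simp [and_comm]
    rw [e]
    calc 8 ^ (j + 1) * _ = 8 ^ j * (8 * _) := by ring
      _ ≤ 8 ^ j * (7 * _) := Nat.mul_le_mul_left _ hs
      _ = 7 * (8 ^ j * _) := by ring
      _ ≤ 7 * (7 ^ j * Fintype.card H) := Nat.mul_le_mul_left _ h2
      _ = _ := by ring

theorem cover_all {H : Type*} [AddCommGroup H] [Fintype H] [DecidableEq H] (D : Finset H)
    (hD : Fintype.card H ≤ 8 * D.card) (j : ℕ) (hj : 7 ^ j * Fintype.card H < 8 ^ j) :
    ∃ T : Finset H, T.card ≤ j ∧ ∀ e, ∃ s ∈ T, e - s ∈ D := by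
  obtain ⟨T, h1, h2⟩ := cover_iter D hD j
  refine ⟨T, h1, fun e => ?_⟩
  by_contra hc
  push Not at hc
  have : 1 ≤ (univ.filter fun e => ∀ s ∈ T, e - s ∉ D).card :=
    card_pos.2 ⟨e, by simpa using hc⟩
  have := Nat.mul_le_mul_left (8 ^ j) this
  omega

/-- the linear functional with coefficient vector r -/
def lin {κ : Type*} [Fintype κ] {p : ℕ} (r : κ → ZMod p) (v : κ → ℤ) : ZMod p :=
  ∑ i, r i * (v i : ZMod p)

theorem lin_add {κ : Type*} [Fintype κ] {p : ℕ} (r : κ → ZMod p) (v w : κ → ℤ) :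
    lin r (v + w) = lin r v + lin r w := by
  simp [lin, mul_add, sum_add_distrib]

theorem lin_sub {κ : Type*} [Fintype κ] {p : ℕ} (r : κ → ZMod p) (v w : κ → ℤ) :
    lin r (v - w) = lin r v - lin r w := by
  simp [lin, mul_sub, sum_sub_distrib]

theorem card_ker {κ : Type*} [Fintype κ] [DecidableEq κ] {p : ℕ} [Fact p.Prime] (v : κ → ℤ)
    (i : κ) (hi : (v i : ZMod p) ≠ 0) :
    (univ.filter fun r : κ → ZMod p => lin r v = 0).card * p = Fintype.card (κ → ZMod p) := by
  let f : (κ → ZMod p) →+ ZMod p :=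
    { toFun := fun r => lin r v
      map_zero' := by simp [lin]
      map_add' := fun r s => by simp [lin, add_mul, sum_add_distrib] }
  have hsurj : ∀ c, c ∈ Set.range f := by
    intro c
    refine ⟨Pi.single i (c / v i), ?_⟩
    simp only [f, AddMonoidHom.coe_mk, ZeroHom.coe_mk, lin]
    rw [sum_eq_single i]
    · simp [div_mul_cancel₀ _ hi]
    · intro j _ hj; simp [hj]
    · simp
  have h1 : (univ : Finset (κ → ZMod p)).card =
      ∑ c : ZMod p, (univ.filter fun r => f r = c).card :=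
    card_eq_sum_card_fiberwise (fun _ _ => mem_univ _)
  have h2 : ∀ c ∈ (univ : Finset (ZMod p)), (univ.filter fun r => f r = c).card =
      (univ.filter fun r => f r = 0).card := fun c _ =>
    AddMonoidHom.card_fiber_eq_of_mem_range f (hsurj c) (hsurj 0)
  rw [sum_congr rfl h2, sum_const, card_univ, card_univ, ZMod.card, smul_eq_mul] at h1
  rw [h1, mul_comm]
  rfl

theorem exists_projection {ι κ : Type*} [DecidableEq ι] [Fintype κ] [DecidableEq κ] {p : ℕ}
    [Fact p.Prime] (T : Finset ι) (d : ι → κ → ℤ)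
    (hinj : ∀ s ∈ T, ∀ t ∈ T, d s = d t → s = t)
    (hsm : ∀ s ∈ T, ∀ t ∈ T, ∀ i, |d s i - d t i| < p) (hT : 2 * T.card ≤ p) :
    ∃ r : κ → ZMod p, T.card ≤ 2 * (T.image fun s => lin r (d s)).card := by
  have hp : 0 < p := (Fact.out : p.Prime).pos
  let coll : (κ → ZMod p) → Finset (ι × ι) := fun r =>
    T.offDiag.filter fun q => lin r (d q.1 - d q.2) = 0
  have hsum : (∑ r, (coll r).card) * p = T.offDiag.card * Fintype.card (κ → ZMod p) := by
    simp only [coll, card_filter]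
    rw [sum_comm, sum_mul, ← smul_eq_mul, ← sum_const]
    apply sum_congr rfl
    intro q hq
    rw [← card_filter]
    obtain ⟨h1, h2, h3⟩ := mem_offDiag.1 hq
    have hne : d q.1 ≠ d q.2 := fun h => h3 (hinj _ h1 _ h2 h)
    obtain ⟨i, hi⟩ := Function.ne_iff.1 hne
    apply card_ker _ i
    rw [Ne, ZMod.intCast_zmod_eq_zero_iff_dvd]
    intro hdvd
    have := Int.eq_zero_of_abs_lt_dvd hdvd (hsm _ h1 _ h2 i)
    exact hi (sub_eq_zero.1 this)
  have : ∃ r ∈ (univ : Finset (κ → ZMod p)), 2 * (coll r).card ≤ T.card := by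
    apply exists_le_of_sum_le univ_nonempty
    rw [← mul_sum, sum_const, card_univ, smul_eq_mul]
    apply Nat.le_of_mul_le_mul_right _ hp
    rw [mul_assoc, hsum, offDiag_card]
    calc 2 * ((T.card * T.card - T.card) * Fintype.card (κ → ZMod p))
        ≤ 2 * ((T.card * T.card) * Fintype.card (κ → ZMod p)) := by
          gcongr; exact Nat.sub_le _ _
      _ = Fintype.card (κ → ZMod p) * T.card * (2 * T.card) := by ring
      _ ≤ _ := Nat.mul_le_mul_left _ hT
  obtain ⟨r, -, hr⟩ := this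
  refine ⟨r, ?_⟩
  let T' := T \ (coll r).image Prod.fst
  have h1 : T.card ≤ T'.card + (coll r).card :=
    card_le_card_sdiff_add_card.trans (Nat.add_le_add_left card_image_le _)
  have h2 : T'.card ≤ (T.image fun s => lin r (d s)).card := by
    apply card_le_card_of_injOn (fun s => lin r (d s))
    · intro s hs
      exact mem_coe.2 (mem_image_of_mem (fun s => lin r (d s)) (mem_sdiff.1 hs).1)
    · intro s hs t ht he
      by_contra hne
      apply (mem_sdiff.1 hs).2
      refine mem_image.2 ⟨(s, t), mem_filter.2 ⟨mem_offDiag.2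
        ⟨(mem_sdiff.1 hs).1, (mem_sdiff.1 ht).1, hne⟩, ?_⟩, rfl⟩
      rw [lin_sub]
      exact sub_eq_zero.2 he
  omega

theorem digit_of_config {ι κ : Type*} [DecidableEq ι] [Fintype κ] [DecidableEq κ] {p : ℕ}
    [Fact p.Prime] (T : Finset ι) (a b : ι → κ → ℤ) (m τ : ℕ)
    (hinj : ∀ s ∈ T, ∀ t ∈ T, a s - b s = a t - b t → s = t)
    (hsm : ∀ s ∈ T, ∀ t ∈ T, ∀ i, |(a s - b s) i - (a t - b t) i| < p)
    (hT : 2 * T.card ≤ p) (hT' : p ≤ 4 * T.card)
    (ha : (T.image a).card ≤ m) (hb : (T.image b).card ≤ m)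
    (hab : (T.image fun s => a s + b s).card ≤ m) (hτ1 : 1 ≤ τ) (hτ : 7 ^ τ * p < 8 ^ τ) :
    ∃ (u0 : ℕ → ℕ) (X : Finset ℤ), (∀ r, u0 r < p) ∧ X.card ≤ 9 * m * τ ∧
      ∀ r, r < p → (u0 r : ℤ) ∈ X ∧ (r + u0 r : ℤ) ∈ X ∧ (r - u0 r : ℤ) ∈ X := by
  have hp : 0 < p := (Fact.out : p.Prime).pos
  have : NeZero p := ⟨hp.ne'⟩
  obtain ⟨r, hr⟩ := exists_projection (p := p) T (fun s => a s - b s) hinj hsm hT
  obtain ⟨S, hS, hcov⟩ := cover_all (T.image fun s => lin r (a s - b s))
    (by rw [ZMod.card]; omega) τ (by rw [ZMod.card]; exact hτ)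
  have h1 : ∀ e : ZMod p, ∃ w ∈ T, ∃ s ∈ S, e = lin r (a w) - lin r (b w) + s := by
    intro e
    obtain ⟨s, hs, he⟩ := hcov e
    obtain ⟨w, hw, he'⟩ := mem_image.1 he
    refine ⟨w, hw, s, hs, ?_⟩
    rw [← lin_sub, he']; ring
  choose w hw s hs he using h1
  let Z : Finset (ZMod p) := ((T.image fun s => a s + b s).image (lin r)) ∪
    (((T.image a) ×ˢ S).image fun q => 2 * lin r q.1 + q.2) ∪
    (((T.image b) ×ˢ S).image fun q => -2 * lin r q.1 + q.2)
  have hZ : Z.card ≤ 3 * m * τ := by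
    have c1 : ((T.image fun s => a s + b s).image (lin r)).card ≤ m * τ :=
      (card_image_le.trans hab).trans (Nat.le_mul_of_pos_right _ hτ1)
    have c2 : (((T.image a) ×ˢ S).image fun q => 2 * lin r q.1 + q.2).card ≤ m * τ := by
      refine card_image_le.trans ?_
      rw [card_product]; exact Nat.mul_le_mul ha hS
    have c3 : (((T.image b) ×ˢ S).image fun q => -2 * lin r q.1 + q.2).card ≤ m * τ := by
      refine card_image_le.trans ?_
      rw [card_product]; exact Nat.mul_le_mul hb hS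
    refine (card_union_le _ _).trans ?_
    have := card_union_le ((T.image fun s => a s + b s).image (lin r))
      (((T.image a) ×ˢ S).image fun q => 2 * lin r q.1 + q.2)
    rw [mul_assoc]
    omega
  let X : Finset ℤ := (Z ×ˢ Icc (-1 : ℤ) 1).image fun q => (q.1.val : ℤ) + q.2 * p
  have hX : ∀ z : ℤ, -p ≤ z → z < 2 * p → (z : ZMod p) ∈ Z → z ∈ X := by
    intro z h1 h2 hz
    have hp' : (0 : ℤ) < p := by exact_mod_cast hp
    refine mem_image.2 ⟨((z : ZMod p), z / p), mem_product.2 ⟨hz, mem_Icc.2 ⟨?_, ?_⟩⟩, ?_⟩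
    · exact (Int.le_ediv_iff_mul_le hp').2 (by linarith)
    · exact Int.lt_add_one_iff.1 ((Int.ediv_lt_iff_lt_mul hp').2 (by linarith))
    · simp only [ZMod.val_intCast]
      rw [mul_comm]
      exact Int.emod_add_mul_ediv z p
  refine ⟨fun e => (lin r (a (w e) + b (w e))).val, X, fun e => ZMod.val_lt _, ?_, ?_⟩
  · refine card_image_le.trans ?_
    rw [card_product]
    have : (Icc (-1 : ℤ) 1).card = 3 := by simp
    rw [this]
    calc Z.card * 3 ≤ 3 * m * τ * 3 := Nat.mul_le_mul_right _ hZ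
      _ = _ := by ring
  · intro e hep
    have hv := ZMod.val_lt (lin r (a (w e) + b (w e)))
    beta_reduce
    refine ⟨hX _ (by omega) (by omega) ?_, hX _ (by omega) (by omega) ?_,
      hX _ (by omega) (by omega) ?_⟩
    · simp only [Int.cast_natCast, ZMod.natCast_zmod_val]
      exact mem_union_left _ (mem_union_left _ (mem_image_of_mem _
        (mem_image_of_mem (fun s => a s + b s) (hw e))))
    · simp only [Int.cast_add, Int.cast_natCast, ZMod.natCast_zmod_val]
      refine mem_union_left _ (mem_union_right _ (mem_image.2 ⟨(a (w e), s e),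
        mem_product.2 ⟨mem_image_of_mem a (hw e), hs e⟩, ?_⟩))
      simp only [lin_add]
      linear_combination -(he e)
    · simp only [Int.cast_sub, Int.cast_natCast, ZMod.natCast_zmod_val]
      refine mem_union_right _ (mem_image.2 ⟨(b (w e), s e),
        mem_product.2 ⟨mem_image_of_mem b (hw e), hs e⟩, ?_⟩)
      simp only [lin_add]
      linear_combination -(he e)

end Pool.Agent.P.MP_c18ee8_co
end

-- part Pool.Agent.P.MP_c18ee8_co.Tensor
section

namespace Pool.Agent.P.MP_c18ee8_co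

open Finset Filter

theorem card_image_pow {ι κ : Type*} [DecidableEq ι] [Fintype κ] [DecidableEq κ] (T : Finset ι)
    (a : ι → κ → ℤ) (m t : ℕ) (ha : (T.image a).card ≤ m) :
    ((Fintype.piFinset fun _ : Fin t => T).image
      fun w => fun q : Fin t × κ => a (w q.1) q.2).card ≤ m ^ t := by
  have : ((Fintype.piFinset fun _ : Fin t => T).image
      fun w => fun q : Fin t × κ => a (w q.1) q.2) ⊆
      (Fintype.piFinset fun _ : Fin t => T.image a).image
        fun v => fun q : Fin t × κ => v q.1 q.2 := by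
    intro x hx
    obtain ⟨w, hw, rfl⟩ := mem_image.1 hx
    refine mem_image.2 ⟨fun j => a (w j), ?_, rfl⟩
    rw [Fintype.mem_piFinset] at hw ⊢
    exact fun j => mem_image_of_mem a (hw j)
  refine (card_le_card this).trans (card_image_le.trans ?_)
  rw [Fintype.card_piFinset_const]
  exact Nat.pow_le_pow_left ha t

theorem lower_of_config {ι κ : Type*} [DecidableEq ι] [Fintype κ] [DecidableEq κ] (T : Finset ι)
    (a b : ι → κ → ℤ) (m : ℕ)
    (hinj : ∀ s ∈ T, ∀ t ∈ T, a s - b s = a t - b t → s = t)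
    (ha : (T.image a).card ≤ m) (hb : (T.image b).card ≤ m)
    (hab : (T.image fun s => a s + b s).card ≤ m) (θ : ℝ) (hθ : 0 ≤ θ)
    (hm : (m : ℝ) < (T.card : ℝ) ^ θ) (hT2 : 2 ≤ T.card) :
    ∃ C : ℝ, ∀ n : ℕ, 1 ≤ n → 6 * (n : ℝ) - C * (n : ℝ) ^ θ ≤ upperIR (queensGraph n) := by
  set δ := T.card with hδ
  have hm1 : 1 ≤ m := by
    have : T.Nonempty := card_pos.1 (by omega)
    exact (card_pos.2 (this.image a)).trans_le ha
  have hm0 : (0 : ℝ) < m := by exact_mod_cast hm1
  obtain ⟨L, hL⟩ : ∃ L : ℕ, ∀ s ∈ T, ∀ t ∈ T, ∀ i, |(a s - b s) i - (a t - b t) i| ≤ L := by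
    refine ⟨(T ×ˢ T ×ˢ (univ : Finset κ)).sup
      fun q => ((a q.1 - b q.1) q.2.2 - (a q.2.1 - b q.2.1) q.2.2).natAbs, ?_⟩
    intro s hs t ht i
    have := le_sup (f := fun q : ι × ι × κ =>
      ((a q.1 - b q.1) q.2.2 - (a q.2.1 - b q.2.1) q.2.2).natAbs)
      (s := T ×ˢ T ×ˢ (univ : Finset κ)) (b := (s, t, i)) (by simp [hs, ht])
    rw [← Int.natCast_natAbs]
    exact_mod_cast this
  set ρ : ℝ := (δ : ℝ) ^ θ / m with hρ
  have hρ1 : 1 < ρ := by rw [hρ, lt_div_iff₀ hm0]; linarith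
  obtain ⟨t, ht1, htL, ht⟩ : ∃ t : ℕ, 1 ≤ t ∧ L ≤ t ∧ 54 * (2 + (δ : ℝ) * t) ≤ ρ ^ t := by
    have h1 := (tendsto_pow_const_div_const_pow_of_one_lt 1 hρ1).eventually
      (gt_mem_nhds (show (0 : ℝ) < 1 / (54 * (2 + δ)) by positivity))
    obtain ⟨t, h2, h3, h4⟩ := (h1.and ((eventually_ge_atTop 1).and (eventually_ge_atTop L))).exists
    refine ⟨t, h3, h4, ?_⟩
    have hρt : 0 < ρ ^ t := by positivity
    rw [pow_one, div_lt_div_iff₀ hρt (by positivity)] at h2
    have h3' : (1 : ℝ) ≤ t := by exact_mod_cast h3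
    nlinarith
  obtain ⟨p, hp, hp1, hp2⟩ := Nat.exists_prime_lt_and_le_two_mul (2 * δ ^ t) (by positivity)
  have : Fact p.Prime := ⟨hp⟩
  have hδt : t < δ ^ t := Nat.lt_pow_self (by omega)
  let T' := Fintype.piFinset fun _ : Fin t => T
  have hT' : T'.card = δ ^ t := Fintype.card_piFinset_const _ _
  have hτ : 7 ^ (6 * (2 + δ * t)) * p < 8 ^ (6 * (2 + δ * t)) := by
    have h1 : δ ^ t ≤ (2 ^ δ) ^ t := Nat.pow_le_pow_left Nat.lt_two_pow_self.le t
    have h2 : p ≤ 2 ^ (2 + δ * t) := by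
      rw [pow_add, pow_mul]; omega
    calc 7 ^ (6 * (2 + δ * t)) * p ≤ 7 ^ (6 * (2 + δ * t)) * 2 ^ (2 + δ * t) :=
          Nat.mul_le_mul_left _ h2
      _ = (7 ^ 6 * 2) ^ (2 + δ * t) := by rw [mul_pow, ← pow_mul]
      _ < (8 ^ 6) ^ (2 + δ * t) := Nat.pow_lt_pow_left (by norm_num) (by omega)
      _ = _ := by rw [← pow_mul]
  obtain ⟨u0, X, h0, hX, hmem⟩ := digit_of_config (p := p) T'
    (fun w => fun q : Fin t × κ => a (w q.1) q.2) (fun w => fun q : Fin t × κ => b (w q.1) q.2)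
    (m ^ t) (6 * (2 + δ * t))
    (by
      intro s hs s' hs' he
      funext j
      apply hinj _ (Fintype.mem_piFinset.1 hs j) _ (Fintype.mem_piFinset.1 hs' j)
      funext i
      exact congrFun he (j, i))
    (by
      intro s hs s' hs' q
      have := hL _ (Fintype.mem_piFinset.1 hs q.1) _ (Fintype.mem_piFinset.1 hs' q.1) q.2
      simp only [Pi.sub_apply] at this ⊢
      have h2 : (L : ℤ) < p := by exact_mod_cast (by omega : L < p)
      linarith)
    (by omega) (by omega) (card_image_pow T a m t ha) (card_image_pow T b m t hb)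
    (card_image_pow T (fun s => a s + b s) m t hab) (by omega) hτ
  refine lower_of_digit p hp.two_le u0 h0 X _ ?_ hX hmem θ hθ ?_
  · have h1 : 1 ≤ m ^ t := Nat.one_le_pow _ _ hm1
    have h2 : 1 ≤ 6 * (2 + δ * t) := by omega
    calc 2 ≤ 9 * 1 * 1 := by norm_num
      _ ≤ _ := by gcongr
  · have hδ0 : (0 : ℝ) ≤ δ := Nat.cast_nonneg _
    have e1 : (δ : ℝ) ^ θ = ρ * m := by rw [hρ]; field_simp
    calc ((9 * m ^ t * (6 * (2 + δ * t)) : ℕ) : ℝ) = 54 * (2 + (δ : ℝ) * t) * (m : ℝ) ^ t := by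
          push_cast; ring
      _ ≤ ρ ^ t * (m : ℝ) ^ t := by gcongr
      _ = ((δ : ℝ) ^ θ) ^ t := by rw [e1, mul_pow]
      _ = ((δ ^ t : ℕ) : ℝ) ^ θ := by
        rw [← Real.rpow_natCast, ← Real.rpow_mul hδ0, mul_comm, Real.rpow_mul hδ0,
          Real.rpow_natCast]
        push_cast; rfl
      _ ≤ (p : ℝ) ^ θ := by
        apply Real.rpow_le_rpow (Nat.cast_nonneg _) _ hθ
        have h : δ ^ t ≤ p := by omega
        exact Nat.cast_le.2 h

/-- the orbit of a word under permuting positions has multinomial size -/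
theorem card_orbit_mul {κ β : Type*} [Fintype κ] [DecidableEq κ] [Fintype β] [DecidableEq β]
    (f : κ → β) :
    ((univ : Finset (Equiv.Perm κ)).image fun σ : Equiv.Perm κ => f ∘ σ).card *
      ∏ i, (Fintype.card {x // f x = i}).factorial = (Fintype.card κ).factorial := by
  rw [← DomMulAct.stabilizer_card f, ← Fintype.card_perm, ← card_univ (α := Equiv.Perm κ),
    card_eq_sum_card_image (fun σ : Equiv.Perm κ => f ∘ σ) univ, ← smul_eq_mul, ← sum_const]
  apply sum_congr rfl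
  intro g hg
  obtain ⟨σ, -, rfl⟩ := mem_image.1 hg
  rw [Fintype.card_subtype]
  apply card_nbij' (fun x => x * σ) (fun x => x * σ⁻¹)
  · intro x hx
    simp only [coe_filter, mem_univ, true_and, Set.mem_ofPred_eq] at hx ⊢
    rw [Equiv.Perm.coe_mul, ← Function.comp_assoc, hx]
  · intro x hx
    simp only [coe_filter, mem_univ, true_and, Set.mem_ofPred_eq] at hx ⊢
    rw [Equiv.Perm.coe_mul, ← Function.comp_assoc, hx, Function.comp_assoc,
      ← Equiv.Perm.coe_mul]
    simp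
  · intro x _; simp
  · intro x _; simp

end Pool.Agent.P.MP_c18ee8_co
end

-- part Pool.Agent.P.MP_c18ee8_co.Slice
section

namespace Pool.Agent.P.MP_c18ee8_co

open Finset

/-- number of vectors of V killed by the functional r -/
def cnt {κ : Type*} [Fintype κ] {p : ℕ} (V : Finset (κ → ℤ)) (r : κ → ZMod p) : ℕ :=
  (V.filter fun v => lin r v = 0).card

theorem markov8 {κ : Type*} [Fintype κ] [DecidableEq κ] {p : ℕ} [Fact p.Prime]
    (V : Finset (κ → ℤ)) (hV : ∀ v ∈ V, ∃ i, (v i : ZMod p) ≠ 0) (M : ℕ) (hM : V.card ≤ M) :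
    8 * (univ.filter fun r : κ → ZMod p => 8 * M < p * cnt V r).card ≤
      Fintype.card (κ → ZMod p) := by
  have hsum : ∑ r : κ → ZMod p, p * cnt V r = V.card * Fintype.card (κ → ZMod p) := by
    rw [← mul_sum, mul_comm]
    simp only [cnt, card_filter]
    rw [sum_comm, sum_mul, ← smul_eq_mul, ← sum_const]
    apply sum_congr rfl
    intro v hv
    rw [← card_filter]
    obtain ⟨i, hi⟩ := hV v hv
    exact card_ker v i hi
  rcases Nat.eq_zero_or_pos M with h0 | h0
  · have hV0 : V = ∅ := card_eq_zero.1 (by omega)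
    simp [hV0, cnt, h0]
  · set S := univ.filter fun r : κ → ZMod p => 8 * M < p * cnt V r with hS
    have h1 : S.card * (8 * M) ≤ ∑ r ∈ S, p * cnt V r := by
      rw [← smul_eq_mul]
      exact card_nsmul_le_sum S _ _ fun r hr => (mem_filter.1 hr).2.le
    have h2 : ∑ r ∈ S, p * cnt V r ≤ ∑ r : κ → ZMod p, p * cnt V r :=
      sum_le_sum_of_subset (subset_univ _)
    have h3 : V.card * Fintype.card (κ → ZMod p) ≤ M * Fintype.card (κ → ZMod p) :=
      Nat.mul_le_mul_right _ hM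
    apply Nat.le_of_mul_le_mul_left _ h0
    calc M * (8 * S.card) = S.card * (8 * M) := by ring
      _ ≤ _ := by omega

/-- the nonzero differences between the values of f on T and a vector z -/
def dif {ι κ : Type*} [DecidableEq κ] [Fintype κ] (T : Finset ι) (f : ι → κ → ℤ) (z : κ → ℤ) :
    Finset (κ → ℤ) := ((T.image f).erase z).image fun v => v - z

theorem dif_card {ι κ : Type*} [DecidableEq κ] [Fintype κ] (T : Finset ι) (f : ι → κ → ℤ)
    (z : κ → ℤ) : (dif T f z).card ≤ (T.image f).card :=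
  card_image_le.trans card_erase_le

theorem dif_ne {ι κ : Type*} [DecidableEq κ] [Fintype κ] {p : ℕ} (T : Finset ι) (f : ι → κ → ℤ)
    (z : κ → ℤ) (h : ∀ s ∈ T, ∀ i, |f s i - z i| < p) :
    ∀ v ∈ dif T f z, ∃ i, (v i : ZMod p) ≠ 0 := by
  intro v hv
  obtain ⟨u, hu, rfl⟩ := mem_image.1 hv
  obtain ⟨hne, hu⟩ := mem_erase.1 hu
  obtain ⟨s, hs, rfl⟩ := mem_image.1 hu
  obtain ⟨i, hi⟩ := Function.ne_iff.1 hne
  refine ⟨i, ?_⟩
  rw [Ne, ZMod.intCast_zmod_eq_zero_iff_dvd]
  intro hdvd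
  exact hi (sub_eq_zero.1 (Int.eq_zero_of_abs_lt_dvd hdvd (h s hs i)))

theorem image_le_cnt {ι κ : Type*} [DecidableEq κ] [Fintype κ] {p : ℕ} (T T' : Finset ι)
    (hT : T' ⊆ T) (f : ι → κ → ℤ) (z : κ → ℤ) (r : κ → ZMod p)
    (h : ∀ s ∈ T', lin r (f s) = lin r z) : (T'.image f).card ≤ 1 + cnt (dif T f z) r := by
  have h1 : (T'.image f).card ≤ 1 + ((T'.image f).erase z).card := by
    have := pred_card_le_card_erase (s := T'.image f) (a := z)
    omega
  refine h1.trans (Nat.add_le_add_left ?_ 1)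
  apply card_le_card_of_injOn (fun v => v - z)
  · intro v hv
    obtain ⟨hne, hv⟩ := mem_erase.1 (mem_coe.1 hv)
    obtain ⟨s, hs, rfl⟩ := mem_image.1 hv
    refine mem_coe.2 (mem_filter.2 ⟨mem_image.2 ⟨f s, mem_erase.2
      ⟨hne, mem_image_of_mem f (hT hs)⟩, rfl⟩, ?_⟩)
    rw [lin_sub, h s hs, sub_self]
  · intro u _ v _ he
    exact sub_left_injective he

theorem slice {ι κ : Type*} [DecidableEq ι] [Fintype κ] [DecidableEq κ] {p : ℕ} [Fact p.Prime]
    (T : Finset ι) (a b : ι → κ → ℤ) (M φ : ℕ) (hne : T.Nonempty)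
    (hinj : ∀ s ∈ T, ∀ t ∈ T, a s = a t → b s = b t → s = t)
    (hsa : ∀ s ∈ T, ∀ t ∈ T, ∀ i, |a s i - a t i| < p)
    (hsb : ∀ s ∈ T, ∀ t ∈ T, ∀ i, |b s i - b t i| < p)
    (hsc : ∀ s ∈ T, ∀ t ∈ T, ∀ i, |(a s + b s) i - (a t + b t) i| < p)
    (ha : (T.image a).card ≤ M) (hb : (T.image b).card ≤ M)
    (hc : (T.image fun s => a s + b s).card ≤ M)
    (hφ : ∀ t ∈ T, ((T.filter fun s => a s - b s = a t - b t).image a).card ≤ φ)
    (hp : 8 * φ < p) :
    ∃ (T' : Finset ι) (m : ℕ), T.card ≤ 2 * p ^ 2 * T'.card ∧ p * m ≤ p + 8 * M ∧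
      (∀ s ∈ T', ∀ t ∈ T', a s - b s = a t - b t → s = t) ∧
      (T'.image a).card ≤ m ∧ (T'.image b).card ≤ m ∧
      (T'.image fun s => a s + b s).card ≤ m := by
  have hp0 : 0 < p := (Fact.out : p.Prime).pos
  have : NeZero p := ⟨hp0.ne'⟩
  let F : ι → Finset ι := fun t => T.filter fun s => a s - b s = a t - b t
  let c : ι → κ → ℤ := fun s => a s + b s
  let bad : ι → (κ → ZMod p) → Prop := fun t r =>
    8 * φ < p * cnt (dif (F t) a (a t)) r ∨ 8 * M < p * cnt (dif T a (a t)) r ∨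
      8 * M < p * cnt (dif T b (b t)) r ∨ 8 * M < p * cnt (dif T c (c t)) r
  have hbad : ∀ t ∈ T, 2 * (univ.filter fun r => bad t r).card ≤ Fintype.card (κ → ZMod p) := by
    intro t ht
    have h1 := markov8 (p := p) (dif (F t) a (a t))
      (dif_ne _ _ _ fun s hs i => hsa s (mem_filter.1 hs).1 t ht i) φ
      ((dif_card _ _ _).trans (hφ t ht))
    have h2 := markov8 (p := p) (dif T a (a t)) (dif_ne _ _ _ fun s hs i => hsa s hs t ht i) M
      ((dif_card _ _ _).trans ha)
    have h3 := markov8 (p := p) (dif T b (b t)) (dif_ne _ _ _ fun s hs i => hsb s hs t ht i) M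
      ((dif_card _ _ _).trans hb)
    have h4 := markov8 (p := p) (dif T c (c t)) (dif_ne _ _ _ fun s hs i => hsc s hs t ht i) M
      ((dif_card _ _ _).trans hc)
    simp only [bad, filter_or]
    have e1 := card_union_le
      (univ.filter fun r : κ → ZMod p => 8 * M < p * cnt (dif T b (b t)) r)
      (univ.filter fun r : κ → ZMod p => 8 * M < p * cnt (dif T c (c t)) r)
    have e2 := card_union_le
      (univ.filter fun r : κ → ZMod p => 8 * M < p * cnt (dif T a (a t)) r)
      ((univ.filter fun r : κ → ZMod p => 8 * M < p * cnt (dif T b (b t)) r) ∪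
      (univ.filter fun r : κ → ZMod p => 8 * M < p * cnt (dif T c (c t)) r))
    have e3 := card_union_le
      (univ.filter fun r : κ → ZMod p => 8 * φ < p * cnt (dif (F t) a (a t)) r)
      ((univ.filter fun r : κ → ZMod p => 8 * M < p * cnt (dif T a (a t)) r) ∪
      ((univ.filter fun r : κ → ZMod p => 8 * M < p * cnt (dif T b (b t)) r) ∪
      (univ.filter fun r : κ → ZMod p => 8 * M < p * cnt (dif T c (c t)) r)))
    omega
  have hr : ∃ r ∈ (univ : Finset (κ → ZMod p)), 2 * (T.filter fun t => bad t r).card ≤ T.card := by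
    apply exists_le_of_sum_le univ_nonempty
    rw [← mul_sum, sum_const, card_univ, smul_eq_mul]
    simp only [card_filter]
    rw [sum_comm, mul_sum, mul_comm (Fintype.card _), ← smul_eq_mul T.card, ← sum_const]
    apply sum_le_sum
    intro t ht
    rw [← card_filter]
    exact hbad t ht
  obtain ⟨r, -, hr⟩ := hr
  let G := T.filter fun t => ¬ bad t r
  have hG : T.card ≤ 2 * G.card := by
    have := card_filter_add_card_filter_not (s := T) (fun t => bad t r)
    simp only [G]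
    omega
  let g : ι → ZMod p × ZMod p := fun t => (lin r (a t), lin r (b t))
  have hy : ∃ y ∈ (univ : Finset (ZMod p × ZMod p)),
      G.card ≤ p ^ 2 * (G.filter fun t => g t = y).card := by
    apply exists_le_of_sum_le univ_nonempty
    rw [← mul_sum, ← card_eq_sum_card_fiberwise (fun _ _ => mem_univ _), sum_const, card_univ,
      Fintype.card_prod, ZMod.card, smul_eq_mul, sq]
  obtain ⟨y, -, hy⟩ := hy
  set T' := G.filter fun t => g t = y with hT'
  have hTpos : 0 < T.card := card_pos.2 hne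
  have hT'ne : T'.Nonempty := by
    rw [← card_pos]
    by_contra h0
    have : T'.card = 0 := by omega
    rw [this] at hy
    omega
  obtain ⟨t0, ht0⟩ := hT'ne
  have hsub : T' ⊆ T := (filter_subset _ _).trans (filter_subset _ _)
  have hga : ∀ s ∈ T', ∀ t ∈ T', lin r (a s) = lin r (a t) := fun s hs t ht =>
    congrArg Prod.fst ((mem_filter.1 hs).2.trans (mem_filter.1 ht).2.symm)
  have hgb : ∀ s ∈ T', ∀ t ∈ T', lin r (b s) = lin r (b t) := fun s hs t ht =>
    congrArg Prod.snd ((mem_filter.1 hs).2.trans (mem_filter.1 ht).2.symm)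
  have hgood : ∀ t ∈ T', ¬ bad t r := fun t ht => (mem_filter.1 (mem_filter.1 ht).1).2
  have h0 := hgood t0 ht0
  simp only [bad, not_or, not_lt] at h0
  obtain ⟨-, g1, g2, g3⟩ := h0
  have key : ∀ k : ℕ, p * k ≤ 8 * M → 1 + k ≤ 1 + 8 * M / p := fun k hk =>
    Nat.add_le_add_left ((Nat.le_div_iff_mul_le hp0).2 (by rw [mul_comm]; exact hk)) 1
  refine ⟨T', 1 + 8 * M / p, ?_, ?_, ?_, ?_, ?_, ?_⟩
  · calc T.card ≤ 2 * G.card := hG
      _ ≤ 2 * (p ^ 2 * T'.card) := Nat.mul_le_mul_left _ hy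
      _ = _ := by ring
  · rw [mul_add, mul_one]
    exact Nat.add_le_add_left (Nat.mul_div_le _ _) _
  · intro s hs t ht he
    have h1 := hgood t ht
    simp only [bad, not_or, not_lt] at h1
    have h2 : cnt (dif (F t) a (a t)) r = 0 := by
      by_contra h
      have := Nat.mul_le_mul_left p (Nat.one_le_iff_ne_zero.2 h)
      omega
    have h3 : a s = a t := by
      by_contra h
      have : a s - a t ∈ (dif (F t) a (a t)).filter fun v => lin r v = 0 :=
        mem_filter.2 ⟨mem_image.2 ⟨a s, mem_erase.2 ⟨h, mem_image_of_mem a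
          (mem_filter.2 ⟨hsub hs, he⟩)⟩, rfl⟩, by rw [lin_sub, hga s hs t ht, sub_self]⟩
      exact (card_pos.2 ⟨_, this⟩).ne' h2
    refine hinj s (hsub hs) t (hsub ht) h3 ?_
    rw [h3] at he
    exact sub_right_injective he
  · exact (image_le_cnt T T' hsub a (a t0) r fun s hs => hga s hs t0 ht0).trans (key _ g1)
  · exact (image_le_cnt T T' hsub b (b t0) r fun s hs => hgb s hs t0 ht0).trans (key _ g2)
  · refine (image_le_cnt T T' hsub c (c t0) r fun s hs => ?_).trans (key _ g3)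
    simp only [c, lin_add, hga s hs t0 ht0, hgb s hs t0 ht0]

end Pool.Agent.P.MP_c18ee8_co
end
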