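import Mathlib

namespace Pool.Agent.P.MP_c18ee8_co

open Finset Real MeasureTheory

theorem g_hasSum (β : ℝ) (hβ : 0 < β) (c : ℝ) :
    HasSum (fun n : ℤ => ∫ t in (c + n)..(c + n + 1), exp (-β * t ^ 2)) √(π / β) := by
  have := (integrable_exp_neg_mul_sq hβ).hasSum_intervalIntegral c
  rwa [integral_gaussian] at this

theorem sq_shift (η u δ : ℝ) (hη : 0 < η) (h1 : δ ^ 2 ≤ 1) :
    (u + δ) ^ 2 ≤ (1 + η) * u ^ 2 + (1 + 1 / η) := by
  have h2 : 2 * u * δ ≤ η * u ^ 2 + δ ^ 2 / η := by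
    have : 0 ≤ (η * u - δ) ^ 2 / η := by positivity
    have e : (η * u - δ) ^ 2 / η = η * u ^ 2 + δ ^ 2 / η - 2 * u * δ := by field_simp; ring
    linarith
  have h3 : δ ^ 2 / η ≤ 1 / η := by gcongr
  nlinarith

theorem g_up (ε β : ℝ) (hε : 0 < ε) (hβ : 0 < β) (hb : β ≤ ε ^ 2 / 4) (c : ℝ) (F : Finset ℤ) :
    ∑ x ∈ F, exp (-β * (x + c) ^ 2) ≤ exp ε * √(π / β) := by
  have hβ' : 0 < β / (1 + ε) := by positivity
  have hs := g_hasSum _ hβ' c
  have h1 : ∀ x : ℤ, exp (-β * (x + c) ^ 2) ≤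
      exp (ε / 2) * ∫ t in (c + x)..(c + x + 1), exp (-(β / (1 + ε)) * t ^ 2) := by
    intro x
    rw [← intervalIntegral.integral_const_mul]
    have : exp (-β * (x + c) ^ 2) = ∫ _ in (c + x)..(c + x + 1), exp (-β * (x + c) ^ 2) := by simp
    rw [this]
    apply intervalIntegral.integral_mono_on (by linarith) (by simp)
      (Continuous.intervalIntegrable (by fun_prop) _ _)
    intro t ht
    rw [← exp_add, exp_le_exp]
    have h2 := sq_shift ε (x + c) (t - (x + c)) hε (by nlinarith [ht.1, ht.2])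
    have h3 : β / (1 + ε) * t ^ 2 ≤ β / (1 + ε) * ((1 + ε) * (x + c) ^ 2 + (1 + 1 / ε)) := by
      apply mul_le_mul_of_nonneg_left _ hβ'.le
      simpa using h2
    have h4 : β / (1 + ε) * ((1 + ε) * (x + c) ^ 2 + (1 + 1 / ε)) = β * (x + c) ^ 2 + β / ε := by
      field_simp; ring
    have h5 : β / ε ≤ ε / 2 := by rw [div_le_iff₀ hε]; nlinarith
    linarith
  have h2 : ∑ x ∈ F, ∫ t in (c + x)..(c + x + 1), exp (-(β / (1 + ε)) * t ^ 2) ≤
      √(π / (β / (1 + ε))) :=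
    sum_le_hasSum F (fun x _ => intervalIntegral.integral_nonneg (by linarith)
      fun t _ => (exp_pos _).le) hs
  have h3 : √(π / (β / (1 + ε))) ≤ exp (ε / 2) * √(π / β) := by
    rw [sqrt_le_iff]
    refine ⟨by positivity, ?_⟩
    rw [mul_pow, sq_sqrt (by positivity), ← exp_nat_mul]
    have : 1 + ε ≤ exp (((2 : ℕ) : ℝ) * (ε / 2)) := by
      have := add_one_le_exp ε
      rw [show ((2 : ℕ) : ℝ) * (ε / 2) = ε by push_cast; ring]; linarith
    calc π / (β / (1 + ε)) = (1 + ε) * (π / β) := by field_simp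
      _ ≤ _ := by gcongr
  calc ∑ x ∈ F, exp (-β * (x + c) ^ 2) ≤ _ := sum_le_sum fun x _ => h1 x
    _ = exp (ε / 2) * _ := (mul_sum _ _ _).symm
    _ ≤ exp (ε / 2) * (exp (ε / 2) * √(π / β)) := by gcongr; exact h2.trans h3
    _ = _ := by rw [← mul_assoc, ← exp_add]; ring_nf

theorem g_low (ε β : ℝ) (hε : 0 < ε) (hε1 : ε ≤ 1) (hβ : 0 < β) (hb : β ≤ ε ^ 2 / 4) (c : ℝ) :
    ∃ F : Finset ℤ, exp (-ε) * √(π / β) ≤ ∑ x ∈ F, exp (-β * (x + c) ^ 2) := by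
  have hβ' : 0 < β * (1 + ε) := by positivity
  have hs := g_hasSum _ hβ' c
  have h1 : ∀ x : ℤ, exp (-(ε / 2)) * ∫ t in (c + x)..(c + x + 1), exp (-(β * (1 + ε)) * t ^ 2) ≤
      exp (-β * (x + c) ^ 2) := by
    intro x
    rw [← intervalIntegral.integral_const_mul]
    have : exp (-β * (x + c) ^ 2) = ∫ _ in (c + x)..(c + x + 1), exp (-β * (x + c) ^ 2) := by simp
    rw [this]
    apply intervalIntegral.integral_mono_on (by linarith)
      (Continuous.intervalIntegrable (by fun_prop) _ _) (by simp)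
    intro t ht
    rw [← exp_add, exp_le_exp]
    have h2 := sq_shift ε t ((x + c) - t) hε (by nlinarith [ht.1, ht.2])
    have h3 : β * (x + c) ^ 2 ≤ β * ((1 + ε) * t ^ 2 + (1 + 1 / ε)) := by
      apply mul_le_mul_of_nonneg_left _ hβ.le
      simpa using h2
    have h5 : β * (1 / ε) ≤ ε / 4 := by rw [mul_one_div, div_le_iff₀ hε]; nlinarith
    nlinarith
  have h3 : exp (-(ε / 2)) * √(π / β) < √(π / (β * (1 + ε))) := by
    rw [lt_sqrt (by positivity), mul_pow, sq_sqrt (by positivity), ← exp_nat_mul,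
      show ((2 : ℕ) : ℝ) * -(ε / 2) = -ε by push_cast; ring, exp_neg]
    have := add_one_lt_exp hε.ne'
    calc (exp ε)⁻¹ * (π / β) < (1 + ε)⁻¹ * (π / β) := by
          gcongr; linarith
      _ = _ := by field_simp
  obtain ⟨F, hF⟩ := (hs.eventually (lt_mem_nhds h3)).exists
  refine ⟨F, ?_⟩
  calc exp (-ε) * √(π / β) = exp (-(ε / 2)) * (exp (-(ε / 2)) * √(π / β)) := by
        rw [← mul_assoc, ← exp_add]; ring_nf
    _ ≤ exp (-(ε / 2)) * _ := mul_le_mul_of_nonneg_left hF.le (exp_pos _).le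
    _ = _ := mul_sum _ _ _
    _ ≤ _ := sum_le_sum fun x _ => h1 x

theorem g2_up (ε β₁ β₂ : ℝ) (hε : 0 < ε) (h1 : 0 < β₁) (hb1 : β₁ ≤ ε ^ 2 / 4) (h2 : 0 < β₂)
    (hb2 : β₂ ≤ ε ^ 2 / 4) (W : Finset (ℤ × ℤ)) :
    ∑ w ∈ W, exp (-β₁ * (w.1 + w.2 / 2) ^ 2 - β₂ * w.2 ^ 2) ≤
      exp (2 * ε) * (√(π / β₁) * √(π / β₂)) := by
  calc ∑ w ∈ W, exp (-β₁ * (w.1 + w.2 / 2) ^ 2 - β₂ * w.2 ^ 2)
      ≤ ∑ w ∈ W.image Prod.fst ×ˢ W.image Prod.snd,
        exp (-β₁ * (w.1 + w.2 / 2) ^ 2 - β₂ * w.2 ^ 2) :=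
        sum_le_sum_of_subset_of_nonneg subset_product fun _ _ _ => (exp_pos _).le
    _ = ∑ y ∈ W.image Prod.snd, (∑ x ∈ W.image Prod.fst, exp (-β₁ * (x + (y : ℝ) / 2) ^ 2)) *
        exp (-β₂ * (y + 0) ^ 2) := by
        rw [sum_product_right]
        refine sum_congr rfl fun y _ => ?_
        rw [sum_mul]
        refine sum_congr rfl fun x _ => ?_
        rw [← exp_add]; ring_nf
    _ ≤ ∑ y ∈ W.image Prod.snd, (exp ε * √(π / β₁)) * exp (-β₂ * (y + 0) ^ 2) :=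
        sum_le_sum fun y _ => mul_le_mul_of_nonneg_right (g_up ε β₁ hε h1 hb1 _ _) (exp_pos _).le
    _ ≤ (exp ε * √(π / β₁)) * (exp ε * √(π / β₂)) := by
        rw [← mul_sum]
        exact mul_le_mul_of_nonneg_left (g_up ε β₂ hε h2 hb2 _ _) (by positivity)
    _ = _ := by rw [two_mul, exp_add]; ring

theorem g2_low (ε β₁ β₂ : ℝ) (hε : 0 < ε) (hε1 : ε ≤ 1) (h1 : 0 < β₁) (hb1 : β₁ ≤ ε ^ 2 / 4)
    (h2 : 0 < β₂) (hb2 : β₂ ≤ ε ^ 2 / 4) :
    ∃ W : Finset (ℤ × ℤ), exp (-(2 * ε)) * (√(π / β₁) * √(π / β₂)) ≤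
      ∑ w ∈ W, exp (-β₁ * (w.1 + w.2 / 2) ^ 2 - β₂ * w.2 ^ 2) := by
  obtain ⟨F, hF⟩ := g_low ε β₂ hε hε1 h2 hb2 0
  choose E hE using fun y : ℤ => g_low ε β₁ hε hε1 h1 hb1 ((y : ℝ) / 2)
  refine ⟨F.biUnion E ×ˢ F, ?_⟩
  calc exp (-(2 * ε)) * (√(π / β₁) * √(π / β₂))
      = (exp (-ε) * √(π / β₁)) * (exp (-ε) * √(π / β₂)) := by
        rw [two_mul, neg_add, exp_add]; ring
    _ ≤ (exp (-ε) * √(π / β₁)) * ∑ y ∈ F, exp (-β₂ * (y + 0) ^ 2) :=
        mul_le_mul_of_nonneg_left hF (by positivity)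
    _ ≤ ∑ y ∈ F, (∑ x ∈ F.biUnion E, exp (-β₁ * (x + (y : ℝ) / 2) ^ 2)) *
        exp (-β₂ * (y + 0) ^ 2) := by
        rw [mul_sum]
        refine sum_le_sum fun y hy => mul_le_mul_of_nonneg_right ((hE y).trans ?_) (exp_pos _).le
        exact sum_le_sum_of_subset_of_nonneg (subset_biUnion_of_mem E hy)
          fun _ _ _ => (exp_pos _).le
    _ = _ := by
        rw [sum_product_right]
        refine sum_congr rfl fun y _ => ?_
        rw [sum_mul]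
        refine sum_congr rfl fun x _ => ?_
        rw [← exp_add]; ring_nf

theorem sum_pi_exp {α : Type*} (W : Finset α) (n : ℕ) (f : Fin n → α → ℝ) :
    ∑ w ∈ Fintype.piFinset fun _ : Fin n => W, exp (∑ i, f i (w i)) =
      ∏ i, ∑ a ∈ W, exp (f i a) := by
  rw [prod_univ_sum]
  exact sum_congr rfl fun w _ => exp_sum _ _

theorem rankin {α : Type*} (W : Finset α) (n : ℕ) (f : α → ℝ) (g : Fin n → α → ℝ) (L B : ℝ)
    (hB : ∀ i, ∑ a ∈ W, exp (f a + g i a) ≤ B) (S : Finset (Fin n → α))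
    (hS : S ⊆ Fintype.piFinset fun _ : Fin n => W) (hL : ∀ w ∈ S, n * L ≤ ∑ i, g i (w i)) :
    ∑ w ∈ S, exp (∑ i, f (w i)) ≤ (exp (-L) * B) ^ n := by
  calc ∑ w ∈ S, exp (∑ i, f (w i))
      ≤ ∑ w ∈ S, exp (n * -L) * exp (∑ i, (f (w i) + g i (w i))) := by
        refine sum_le_sum fun w hw => ?_
        rw [← exp_add, exp_le_exp, sum_add_distrib]
        linarith [hL w hw]
    _ ≤ ∑ w ∈ Fintype.piFinset fun _ : Fin n => W,
        exp (n * -L) * exp (∑ i, (f (w i) + g i (w i))) :=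
        sum_le_sum_of_subset_of_nonneg hS fun _ _ _ => by positivity
    _ = exp (n * -L) * ∏ i, ∑ a ∈ W, exp (f a + g i a) := by
        rw [← mul_sum, sum_pi_exp W n fun i a => f a + g i a]
    _ ≤ exp (n * -L) * ∏ _i : Fin n, B := by
        refine mul_le_mul_of_nonneg_left ?_ (exp_pos _).le
        exact prod_le_prod (fun i _ => sum_nonneg fun _ _ => (exp_pos _).le) fun i _ => hB i
    _ = _ := by rw [prod_const, card_univ, Fintype.card_fin, mul_pow, exp_nat_mul]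

/-- counting integer vectors in a shifted ball -/
theorem ball_card (ε β L : ℝ) (hε : 0 < ε) (hβ : 0 < β) (hb : β ≤ ε ^ 2 / 4) (n : ℕ)
    (c : Fin n → ℝ) (S : Finset (Fin n → ℤ))
    (hL : ∀ x ∈ S, ∑ i, β * (x i + c i) ^ 2 ≤ n * L) :
    (S.card : ℝ) ≤ (exp (L + ε) * √(π / β)) ^ n := by
  have := rankin (S.biUnion fun x => univ.image x) n (fun _ => 0)
    (fun i a => -β * (a + c i) ^ 2) (-L) (exp ε * √(π / β))
    (fun i => by simpa using g_up ε β hε hβ hb (c i) _) S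
    (fun x hx => Fintype.mem_piFinset.2 fun i =>
      mem_biUnion.2 ⟨x, hx, mem_image_of_mem x (mem_univ i)⟩)
    (fun x hx => by
      have := hL x hx
      simp only [neg_mul, sum_neg_distrib]
      linarith)
  simpa [exp_add, mul_assoc] using this

end Pool.Agent.P.MP_c18ee8_co
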