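import Pool.Agent.K.MP_c18ee8_co.C3
import Pool.Agent.K.MP_c18ee8_co.C5

namespace Pool.Agent.P.MP_c18ee8_co

open Finset Real Filter

theorem gauss_config (θ : ℝ) (hθ : log 4 / log 12 < θ) :
    ∃ (n : ℕ) (T : Finset (Fin n → ℤ × ℤ)) (a b : (Fin n → ℤ × ℤ) → Fin n → ℤ) (m : ℕ),
      (∀ s ∈ T, ∀ t ∈ T, a s - b s = a t - b t → s = t) ∧ (T.image a).card ≤ m ∧
      (T.image b).card ≤ m ∧ (T.image fun s => a s + b s).card ≤ m ∧
      (m : ℝ) < (T.card : ℝ) ^ θ ∧ 2 ≤ T.card := by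
  have hl12 : 0 < log 12 := log_pos (by norm_num)
  have hl4 : 0 < log 4 := log_pos (by norm_num)
  have hθ0 : 0 < θ := lt_trans (by positivity) hθ
  have hg : 0 < θ * log 12 - log 4 := by rw [div_lt_iff₀ hl12] at hθ; linarith
  obtain ⟨γ, hγ, hγ1, hγ2⟩ : ∃ γ : ℝ, 0 < γ ∧ γ ≤ 1 / 10 ∧ 6 * γ * θ < θ * log 12 - log 4 := by
    refine ⟨min (1 / 10) ((θ * log 12 - log 4) / (12 * θ)), by positivity, min_le_left _ _, ?_⟩
    have h1 := min_le_right (1 / 10) ((θ * log 12 - log 4) / (12 * θ))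
    rw [le_div_iff₀ (by positivity)] at h1
    linarith
  obtain ⟨u, B, hu, hT⟩ := typical γ hγ (by linarith)
  set ρ := 2 * √3 * exp (-(3 * γ)) with hρ
  have hρ0 : 0 < ρ := by positivity
  have hρθ : 2 < ρ ^ θ := by
    have h3 : log (2 * √3) = log 12 / 2 := by
      rw [show (12 : ℝ) = (2 * √3) ^ 2 by rw [mul_pow, sq_sqrt (by norm_num)]; norm_num, log_pow]
      push_cast; ring
    have h4 : log 4 = 2 * log 2 := by
      rw [show (4 : ℝ) = 2 ^ 2 by norm_num, log_pow]; push_cast; ring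
    rw [lt_rpow_iff_log_lt (by norm_num) hρ0, hρ, log_mul (by positivity) (by positivity), h3,
      log_exp]
    linarith
  have hρ1 : 1 < ρ := by
    have h1 : 1 - 3 * γ ≤ exp (-(3 * γ)) := by linarith [add_one_le_exp (-(3 * γ))]
    have h2 : 1 ≤ √3 := one_le_sqrt.2 (by norm_num)
    nlinarith
  set K : ℝ := 16 * (16 + 4 * B) ^ 2 with hK
  have hK0 : 0 < K := by positivity
  obtain ⟨n, hn1, hn2, hn3⟩ : ∃ n : ℕ, exp (-(γ ^ 2 / 16)) ^ n ≤ 1 / 8 ∧ 2 * K ≤ ρ ^ n ∧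
      2 * K ^ θ < (ρ ^ θ / 2) ^ n := by
    have h1 := (tendsto_pow_atTop_nhds_zero_of_lt_one (exp_pos (-(γ ^ 2 / 16))).le
      (exp_lt_one_iff.2 (neg_lt_zero.2 (by positivity)))).eventually (ge_mem_nhds (show (0 : ℝ) < 1 / 8 by norm_num))
    have h2 := (tendsto_pow_atTop_atTop_of_one_lt hρ1).eventually_ge_atTop (2 * K)
    have h3 := (tendsto_pow_atTop_atTop_of_one_lt
      (show 1 < ρ ^ θ / 2 by linarith)).eventually_gt_atTop (2 * K ^ θ)
    exact (h1.and (h2.and h3)).exists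
  obtain ⟨T, hB, hc, h1, h2, h3, h4⟩ := hT n hn1
  have hv : 1 ≤ (u / 2) ^ n := one_le_pow₀ (by linarith)
  obtain ⟨p, hp, hp1, hp2⟩ := Nat.exists_prime_lt_and_le_two_mul
    (8 * ⌊(u / 2) ^ n⌋₊ + 8 + 4 * B) (by positivity)
  have : Fact p.Prime := ⟨hp⟩
  have hp0 : (0 : ℝ) < p := by exact_mod_cast hp.pos
  have hpB : (4 * B : ℤ) < p := by exact_mod_cast (by omega : 4 * B < p)
  have hu0 : 0 < u := by linarith
  have hTne : T.Nonempty := by
    rw [← card_pos]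
    have : (0 : ℝ) < 2 * T.card := lt_of_lt_of_le (by positivity) hc
    have : (0 : ℝ) < T.card := by linarith
    exact_mod_cast this
  obtain ⟨T', m, g1, g2, g3, g4, g5, g6⟩ := slice (p := p) T (fun w i => (w i).1)
    (fun w i => (w i).2) ⌊u ^ n⌋₊ ⌊(u / 2) ^ n⌋₊ hTne
    (fun s _ t _ e1 e2 => funext fun i => Prod.ext (congrFun e1 i) (congrFun e2 i))
    (fun s hs t ht i => by
      have := abs_le.1 (hB s hs i).1
      have := abs_le.1 (hB t ht i).1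
      rw [abs_lt]; omega)
    (fun s hs t ht i => by
      have := abs_le.1 (hB s hs i).2
      have := abs_le.1 (hB t ht i).2
      rw [abs_lt]; omega)
    (fun s hs t ht i => by
      have := abs_le.1 (hB s hs i).1
      have := abs_le.1 (hB t ht i).1
      have := abs_le.1 (hB s hs i).2
      have := abs_le.1 (hB t ht i).2
      simp only [Pi.add_apply]
      rw [abs_lt]; omega)
    (Nat.le_floor h1) (Nat.le_floor h2) (Nat.le_floor h3) (fun t _ => Nat.le_floor (h4 _))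
    (by omega)
  have hpl : 8 * (u / 2) ^ n ≤ p := by
    have e1 := Nat.lt_floor_add_one ((u / 2) ^ n)
    have e2 : ((8 * ⌊(u / 2) ^ n⌋₊ + 8 : ℕ) : ℝ) ≤ p := by exact_mod_cast (by omega)
    push_cast at e2
    linarith
  have hpu : (p : ℝ) ≤ 2 * (16 + 4 * B) * (u / 2) ^ n := by
    have e1 := Nat.floor_le (show 0 ≤ (u / 2) ^ n by positivity)
    have e2 : (p : ℝ) ≤ ((2 * (8 * ⌊(u / 2) ^ n⌋₊ + 8 + 4 * B) : ℕ) : ℝ) := by exact_mod_cast hp2
    push_cast at e2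
    have : (0 : ℝ) ≤ B := Nat.cast_nonneg _
    nlinarith
  have hm : (m : ℝ) ≤ 2 * 2 ^ n := by
    have e1 : (p : ℝ) * m ≤ p + 8 * ⌊u ^ n⌋₊ := by exact_mod_cast g2
    have e2 := Nat.floor_le (show 0 ≤ u ^ n by positivity)
    have e3 : u ^ n = (u / 2) ^ n * 2 ^ n := by rw [← mul_pow]; ring_nf
    have e4 : (1 : ℝ) ≤ 2 ^ n := one_le_pow₀ (by norm_num)
    apply le_of_mul_le_mul_left _ hp0
    nlinarith
  have hcard : ρ ^ n ≤ K * T'.card := by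
    have e1 : (T.card : ℝ) ≤ 2 * p ^ 2 * T'.card := by exact_mod_cast g1
    have e2 : (u ^ 2 * (√3 / 2) * exp (-(3 * γ))) ^ n = ρ ^ n * ((u / 2) ^ n) ^ 2 := by
      rw [← pow_mul, mul_comm n 2, pow_mul, ← mul_pow, hρ]; ring_nf
    have e3 : (p : ℝ) ^ 2 ≤ (2 * (16 + 4 * B) * (u / 2) ^ n) ^ 2 := by gcongr
    have e4 : 0 < ((u / 2) ^ n) ^ 2 := by positivity
    apply le_of_mul_le_mul_right _ e4
    calc ρ ^ n * ((u / 2) ^ n) ^ 2 ≤ 2 * (2 * p ^ 2 * T'.card) := by linarith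
      _ ≤ 2 * (2 * (2 * (16 + 4 * B) * (u / 2) ^ n) ^ 2 * T'.card) := by gcongr
      _ = _ := by rw [hK]; ring
  refine ⟨n, T', _, _, m, g3, g4, g5, g6, ?_, ?_⟩
  · have e1 : (ρ ^ n) ^ θ ≤ K ^ θ * (T'.card : ℝ) ^ θ := by
      rw [← mul_rpow hK0.le (Nat.cast_nonneg _)]
      exact rpow_le_rpow (by positivity) hcard hθ0.le
    have e2 : (ρ ^ n) ^ θ = (ρ ^ θ / 2) ^ n * 2 ^ n := by
      rw [← mul_pow, div_mul_cancel₀ _ (by norm_num : (2 : ℝ) ≠ 0), ← rpow_natCast,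
        ← rpow_mul hρ0.le, mul_comm, rpow_mul hρ0.le, rpow_natCast]
    have e3 : 0 < K ^ θ := by positivity
    apply lt_of_mul_lt_mul_left _ e3.le
    have e4 : (0 : ℝ) < 2 ^ n := by positivity
    calc K ^ θ * m ≤ K ^ θ * (2 * 2 ^ n) := by gcongr
      _ = 2 * K ^ θ * 2 ^ n := by ring
      _ < (ρ ^ θ / 2) ^ n * 2 ^ n := by gcongr
      _ ≤ _ := e2 ▸ e1
  · have : (2 : ℝ) ≤ T'.card := le_of_mul_le_mul_left (by linarith) hK0
    exact_mod_cast this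

theorem gauss_lower (θ : ℝ) (hθ : log 4 / log 12 < θ) :
    ∃ C : ℝ, ∀ n : ℕ, 1 ≤ n → 6 * (n : ℝ) - C * (n : ℝ) ^ θ ≤ upperIR (queensGraph n) := by
  obtain ⟨n, T, a, b, m, h1, h2, h3, h4, h5, h6⟩ := gauss_config θ hθ
  have hθ0 : 0 ≤ θ := le_trans
    (div_nonneg (log_nonneg (by norm_num)) (log_nonneg (by norm_num))) hθ.le
  exact lower_of_config T a b m h1 h2 h3 h4 θ hθ0 h5 h6

end Pool.Agent.P.MP_c18ee8_co
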