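import Pool.Agent.P.MP_db4732_co.Ent

-- part Pool.Agent.P.MP_c18ee8_co.KTa
section

/-! Towers of conditionally independent copies of an edge, and entropies of linear forms. -/

namespace Pool.Agent.P.MP_c18ee8_co.KT

open Finset Real Pool.Agent.P.MP_db4732_co.Ent

abbrev Fm : Type := List ℤ

def dot : Fm → (ℕ → ℤ) → ℤ
  | [], _ => 0
  | a :: f, z => a * z 0 + dot f fun i => z (i + 1)

theorem dot_realize : True := by have := @dot.eq_def; trivial

def vadd : Fm → Fm → Fm
  | [], g => g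
  | a :: f, [] => a :: f
  | a :: f, b :: g => (a + b) :: vadd f g

theorem vadd_realize : True := by have := @vadd.eq_def; trivial

def vsm (k : ℤ) (f : Fm) : Fm := f.map fun a => k * a

def lin : Fm → List Fm → Fm
  | c :: cs, f :: fs => vadd (vsm c f) (lin cs fs)
  | _, _ => []

theorem lin_realize : True := by have := @lin.eq_def; trivial

def veq (f g : Fm) : Bool := (vadd f (vsm (-1) g)).all fun a => a == 0

def unit (k : ℕ) : Fm := List.replicate k 0 ++ [1]

def units (n : ℕ) : List Fm := (List.range n).map unit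

theorem dot_vadd : ∀ (f g : Fm) (z : ℕ → ℤ), dot (vadd f g) z = dot f z + dot g z
  | [], g, z => by simp [vadd, dot]
  | a :: f, [], z => by simp [vadd, dot]
  | a :: f, b :: g, z => by simp only [vadd, dot, dot_vadd f g]; ring

theorem dot_vsm (k : ℤ) : ∀ (f : Fm) (z : ℕ → ℤ), dot (vsm k f) z = k * dot f z
  | [], z => by simp [vsm, dot]
  | a :: f, z => by
    have := dot_vsm k f fun i => z (i + 1)
    simp only [vsm, List.map_cons, dot] at this ⊢
    rw [this]; ring

theorem dot_zero : ∀ (f : Fm) (z : ℕ → ℤ), (f.all fun a => a == 0) = true → dot f z = 0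
  | [], z, _ => rfl
  | a :: f, z, h => by
    simp only [List.all_cons, Bool.and_eq_true, beq_iff_eq] at h
    simp [dot, h.1, dot_zero f _ h.2]

theorem dot_veq {f g : Fm} (h : veq f g = true) (z : ℕ → ℤ) : dot f z = dot g z := by
  have := dot_zero _ z h
  rw [dot_vadd, dot_vsm] at this
  linarith

theorem dot_congr : ∀ (f : Fm) {z z' : ℕ → ℤ}, (∀ i < f.length, z i = z' i) → dot f z = dot f z'
  | [], _, _, _ => rfl
  | a :: f, z, z', h => by
    simp only [dot]
    rw [h 0 (by simp), dot_congr f (z := fun i => z (i + 1)) (z' := fun i => z' (i + 1))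
      fun i hi => h (i + 1) (by simpa using hi)]

theorem dot_shift : ∀ (n : ℕ) (f : Fm) (z : ℕ → ℤ),
    dot (List.replicate n 0 ++ f) z = dot f fun i => z (i + n)
  | 0, f, z => by simp
  | n + 1, f, z => by
    simp only [List.replicate_succ, List.cons_append, dot, dot_shift n f, zero_mul, zero_add]
    rfl

theorem dot_unit (k : ℕ) (z : ℕ → ℤ) : dot (unit k) z = z k := by
  simp [unit, dot_shift, dot]

theorem dot_lin : ∀ (c : Fm) (M : List Fm) (z : ℕ → ℤ),
    dot (lin c M) z = dot c fun k => dot (M.getD k []) z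
  | [], M, z => by simp [lin, dot]
  | a :: c, [], z => by
    have : ∀ f : Fm, dot f (fun _ => 0) = 0 := fun f => by
      induction f with
      | nil => rfl
      | cons b f ih => simp [dot, ih]
    simp [lin, dot, this]
  | a :: c, f :: M, z => by
    simp [lin, dot, dot_vadd, dot_vsm, dot_lin c M z]

theorem dot_lin_agree (c : Fm) {K : List Fm} {z z' : ℕ → ℤ} (h : ∀ f ∈ K, dot f z = dot f z') :
    dot (lin c K) z = dot (lin c K) z' := by
  rw [dot_lin, dot_lin]
  congr 1
  funext k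
  by_cases hk : k < K.length
  · rw [List.getD_eq_getElem _ _ hk]; exact h _ (List.getElem_mem hk)
  · rw [List.getD_eq_default _ _ (not_lt.1 hk)]; rfl

/-- a tower: the edge, or two copies of a tower glued along the forms `S`; `C` are the new
coordinates and `ab` writes the old coordinates through `S` and `C` -/
inductive Cf where
  | base : Cf
  | dbl (Y : Cf) (S C : List Fm) (ab : List (Fm × Fm)) : Cf

namespace Cf

def dim : Cf → ℕ
  | base => 2
  | dbl Y _ C _ => Y.dim + C.length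

theorem dim_realize : True := by have := @dim.eq_def; trivial

def Om (G : Finset (ℤ × ℤ)) : Cf → Type
  | base => G
  | dbl Y _ _ _ => Y.Om G × Y.Om G

theorem Om_realize : True := by have := @Om.eq_def; trivial

@[reducible] def fin (G : Finset (ℤ × ℤ)) : ∀ c : Cf, Fintype (c.Om G)
  | base => (inferInstance : Fintype G)
  | dbl Y _ _ _ => @instFintypeProd _ _ (fin G Y) (fin G Y)

theorem fin_realize : True := by have := @fin.eq_def; trivial

instance (G : Finset (ℤ × ℤ)) (c : Cf) : Fintype (c.Om G) := fin G c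

def Z (G : Finset (ℤ × ℤ)) : ∀ c : Cf, c.Om G → ℕ → ℤ
  | base => fun w i => if i = 0 then w.1.1 else if i = 1 then w.1.2 else 0
  | dbl Y _ C _ => fun w i =>
    if i < Y.dim then Z G Y w.1 i else dot (C.getD (i - Y.dim) []) (Z G Y w.2)

theorem Z_realize : True := by have := @Z.eq_def; trivial

/-- values of a list of forms -/
def ev (G : Finset (ℤ × ℤ)) (c : Cf) (L : List Fm) (w : c.Om G) : List ℤ :=
  L.map fun f => dot f (c.Z G w)

noncomputable def pr (G : Finset (ℤ × ℤ)) : ∀ c : Cf, c.Om G → ℝ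
  | base => fun _ => (G.card : ℝ)⁻¹
  | dbl Y S _ _ => glue (pr G Y) (Y.ev G S)

theorem pr_realize : True := by have := @pr.eq_def; trivial

noncomputable def H (G : Finset (ℤ × ℤ)) (c : Cf) (L : List Fm) : ℝ := ent (c.pr G) (c.ev G L)

def m2 (n : ℕ) (S : List Fm) (ab : List (Fm × Fm)) : List Fm :=
  ab.map fun t => vadd (lin t.1 S) (List.replicate n 0 ++ t.2)

def ok : Cf → Bool
  | base => true
  | dbl Y S C ab => Y.ok && (ab.length == Y.dim) && (S.all fun f => f.length ≤ Y.dim) &&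
      (C.all fun f => f.length ≤ Y.dim) &&
      (List.range Y.dim).all fun k =>
        veq (unit k) (vadd (lin (ab.getD k ([], [])).1 S) (lin (ab.getD k ([], [])).2 C))

theorem ok_realize : True := by have := @ok.eq_def; trivial

variable {G : Finset (ℤ × ℤ)}

theorem isP (hG : G.Nonempty) : ∀ c : Cf, IsP (c.pr G)
  | base => by
    have : (G.card : ℝ) ≠ 0 := by exact_mod_cast hG.card_pos.ne'
    refine ⟨fun _ => by simp [pr], ?_⟩
    show ∑ _w : G, (G.card : ℝ)⁻¹ = 1
    simp [this]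
  | dbl Y S _ _ => glue_isP (isP hG Y) _

theorem Z_zero : ∀ (c : Cf) (w : c.Om G) (i : ℕ), c.dim ≤ i → c.Z G w i = 0
  | base, w, i, h => by
    have h' : 2 ≤ i := h
    simp only [Z]
    rw [if_neg (by omega), if_neg (by omega)]
  | dbl Y S C ab, w, i, h => by
    have h' : Y.dim + C.length ≤ i := h
    simp only [Z]
    rw [if_neg (by omega), List.getD_eq_default _ _ (by omega)]
    rfl

theorem ev_eq {c : Cf} {L : List Fm} {w w' : c.Om G} :
    c.ev G L w = c.ev G L w' ↔ ∀ f ∈ L, dot f (c.Z G w) = dot f (c.Z G w') := by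
  simp [ev]

theorem dot_fst (Y : Cf) (S C : List Fm) (ab : List (Fm × Fm)) (w : Y.Om G × Y.Om G) {f : Fm}
    (hf : f.length ≤ Y.dim) : dot f ((dbl Y S C ab).Z G w) = dot f (Y.Z G w.1) :=
  dot_congr f fun i hi => by simp only [Z]; rw [if_pos (by omega)]

theorem len_vadd : ∀ (f g : Fm) (n : ℕ), f.length ≤ n → g.length ≤ n → (vadd f g).length ≤ n
  | [], _, _, _, h => h
  | _ :: _, [], _, h, _ => h
  | _ :: f, _ :: g, 0, h, _ => by simp at h
  | _ :: f, _ :: g, n + 1, h, h' => by
    simpa [vadd] using len_vadd f g n (by simpa using h) (by simpa using h')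

theorem len_lin : ∀ (c : Fm) (M : List Fm) (n : ℕ), (∀ f ∈ M, f.length ≤ n) → (lin c M).length ≤ n
  | [], _, _, _ => by simp [lin]
  | _ :: _, [], _, _ => by simp [lin]
  | a :: c, f :: M, n, h => len_vadd _ _ n (by simpa [vsm] using h f (by simp))
      (len_lin c M n fun g hg => h g (by simp [hg]))

theorem Z_snd {Y : Cf} {S C : List Fm} {ab : List (Fm × Fm)} (h : (dbl Y S C ab).ok = true)
    {w : Y.Om G × Y.Om G} (hw : (dbl Y S C ab).pr G w ≠ 0) (k : ℕ) :
    Y.Z G w.2 k = dot ((m2 Y.dim S ab).getD k []) ((dbl Y S C ab).Z G w) := by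
  simp only [ok, Bool.and_eq_true, beq_iff_eq, List.all_eq_true, decide_eq_true_eq,
    List.mem_range] at h
  obtain ⟨⟨⟨⟨-, hl⟩, hS⟩, -⟩, hk⟩ := h
  by_cases hkd : k < Y.dim
  · have h1 := dot_veq (hk k hkd) (Y.Z G w.2)
    have hk' : k < ab.length := by omega
    rw [List.getD_eq_getElem _ _ hk'] at h1
    rw [List.getD_eq_getElem _ _ (by simpa [m2] using hk')]
    simp only [m2, List.getElem_map]
    rw [dot_unit, dot_vadd] at h1
    rw [h1, dot_vadd, dot_fst Y S C ab w (len_lin _ _ _ hS), dot_shift,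
      dot_lin_agree _ (ev_eq.1 (glue_ne hw).1), dot_lin _ C]
    congr 2
    funext i
    simp only [Z]
    rw [if_neg (by omega), Nat.add_sub_cancel]
  · rw [Z_zero Y _ k (by omega), List.getD_eq_default _ _ (by simp [m2]; omega)]
    rfl

theorem dot_snd {Y : Cf} {S C : List Fm} {ab : List (Fm × Fm)} (h : (dbl Y S C ab).ok = true)
    {w : Y.Om G × Y.Om G} (hw : (dbl Y S C ab).pr G w ≠ 0) (f : Fm) :
    dot (lin f (m2 Y.dim S ab)) ((dbl Y S C ab).Z G w) = dot f (Y.Z G w.2) := by
  rw [dot_lin]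
  congr 1
  funext k
  exact (Z_snd h hw k).symm

theorem ok_par {Y : Cf} {S C : List Fm} {ab : List (Fm × Fm)} (h : (dbl Y S C ab).ok = true) :
    Y.ok = true := by
  simp only [ok, Bool.and_eq_true] at h
  exact h.1.1.1.1

theorem inj : ∀ (c : Cf), c.ok = true → ∀ w w' : c.Om G, c.pr G w ≠ 0 → c.pr G w' ≠ 0 →
    c.Z G w = c.Z G w' → w = w'
  | base, _, w, w', _, _, h => by
    have h0 := congrFun h 0
    have h1 := congrFun h 1
    simp only [Z] at h0 h1
    exact Subtype.ext (Prod.ext (by simpa using h0) (by simpa using h1))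
  | dbl Y S C ab, hc, w, w', hw, hw', h => by
    refine Prod.ext (inj Y (ok_par hc) _ _ (glue_ne hw).2.1 (glue_ne hw').2.1 ?_)
      (inj Y (ok_par hc) _ _ (glue_ne hw).2.2 (glue_ne hw').2.2 ?_)
    · funext i
      by_cases hi : i < Y.dim
      · have := congrFun h i
        simp only [Z] at this
        rwa [if_pos hi, if_pos hi] at this
      · rw [Z_zero Y _ i (by omega), Z_zero Y _ i (by omega)]
    · funext i
      rw [Z_snd hc hw, Z_snd hc hw', h]

theorem ent_eq {Ω α β : Type} [Fintype Ω] {p : Ω → ℝ} (hp : IsP p) {X : Ω → α} {Y : Ω → β}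
    (h : ∀ w w', p w ≠ 0 → p w' ≠ 0 → (X w = X w' ↔ Y w = Y w')) : ent p X = ent p Y :=
  le_antisymm (ent_mono hp fun w w' a b e => (h w w' a b).2 e)
    (ent_mono hp fun w w' a b e => (h w w' a b).1 e)

theorem H_top (hG : G.Nonempty) {c : Cf} (hc : c.ok = true) :
    c.H G (units c.dim) = ent (c.pr G) id := by
  refine ent_eq (isP hG c) fun w w' a b => ⟨fun e => inj c hc _ _ a b ?_, fun e => by
    have e' : w = w' := e
    rw [e']⟩
  funext i
  by_cases hi : i < c.dim
  · have := ev_eq.1 e (unit i) (List.mem_map.2 ⟨i, List.mem_range.2 hi, rfl⟩)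
    rwa [dot_unit, dot_unit] at this
  · rw [Z_zero c _ i (by omega), Z_zero c _ i (by omega)]

theorem H_ci (hG : G.Nonempty) {Y : Cf} {S C : List Fm} {ab : List (Fm × Fm)}
    (h : (dbl Y S C ab).ok = true) :
    (dbl Y S C ab).H G (units (dbl Y S C ab).dim) + Y.H G S = 2 * Y.H G (units Y.dim) := by
  rw [H_top hG h, H_top hG (ok_par h)]
  have := ent_glue_id (isP hG Y) (Y.ev G S)
  have e : ent ((dbl Y S C ab).pr G) id = ent (glue (Y.pr G) (Y.ev G S)) id := rfl
  rw [e, this, H]; ring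

end Cf

end Pool.Agent.P.MP_c18ee8_co.KT
end

-- part Pool.Agent.P.MP_c18ee8_co.KTb
section

/-! Copies of one tower inside another, and symmetries. -/

namespace Pool.Agent.P.MP_c18ee8_co.KT

open Finset Real Pool.Agent.P.MP_db4732_co.Ent

def ap (M : List Fm) (z : ℕ → ℤ) : ℕ → ℤ := fun k => dot (M.getD k []) z

def mp (M L : List Fm) : List Fm := L.map fun f => lin f M

def vals (L : List Fm) (z : ℕ → ℤ) : List ℤ := L.map fun f => dot f z

def jn (n : ℕ) (C : List Fm) (z z' : ℕ → ℤ) : ℕ → ℤ := fun i =>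
  if i < n then z i else dot (C.getD (i - n) []) z'

theorem dot_ap (f : Fm) (M : List Fm) (z : ℕ → ℤ) : dot (lin f M) z = dot f (ap M z) :=
  dot_lin f M z

theorem ap_mp (M N : List Fm) (z : ℕ → ℤ) : ap (mp M N) z = ap N (ap M z) := by
  funext k
  by_cases hk : k < N.length
  · show dot ((mp M N).getD k []) z = dot (N.getD k []) (ap M z)
    rw [List.getD_eq_getElem _ _ hk, List.getD_eq_getElem _ _ (by simpa [mp] using hk)]
    simp only [mp, List.getElem_map, dot_ap]
  · show dot ((mp M N).getD k []) z = dot (N.getD k []) (ap M z)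
    rw [List.getD_eq_default _ _ (not_lt.1 hk), List.getD_eq_default _ _ (by simpa [mp] using hk)]
    rfl

theorem vals_mp (M L : List Fm) (z : ℕ → ℤ) : vals (mp M L) z = vals L (ap M z) := by
  simp [vals, mp, dot_ap]

theorem ap_units (n : ℕ) (z : ℕ → ℤ) (k : ℕ) : ap (units n) z k = if k < n then z k else 0 := by
  unfold ap
  split_ifs with hk
  · rw [List.getD_eq_getElem _ _ (by simpa [units] using hk)]
    simp [units, dot_unit]
  · rw [List.getD_eq_default _ _ (by simpa [units] using hk)]; rfl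

theorem ap_app {A : List Fm} {n : ℕ} (hA : A.length = n) (B C : List Fm) (z : ℕ → ℤ) :
    ap (A ++ mp B C) z = jn n C (ap A z) (ap B z) := by
  funext k
  unfold jn
  split_ifs with hk
  · show dot ((A ++ mp B C).getD k []) z = dot (A.getD k []) z
    rw [List.getD_append _ _ _ _ (by omega)]
  · show dot ((A ++ mp B C).getD k []) z = _
    rw [List.getD_append_right _ _ _ _ (by omega), hA]
    exact congrFun (ap_mp B C z) (k - n)

namespace Cf

variable {G : Finset (ℤ × ℤ)}

/-- the forms `M` on `X` have the law of the coordinates of `Y` -/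
def Emb (G : Finset (ℤ × ℤ)) (X Y : Cf) (M : List Fm) : Prop :=
  ∀ φ : (ℕ → ℤ) → ℝ, ∑ w, X.pr G w * φ (ap M (X.Z G w)) = ∑ w, Y.pr G w * φ (Y.Z G w)

theorem law_emb {X Y : Cf} {M : List Fm} (h : Emb G X Y M) (L : List Fm) (v : List ℤ) :
    law (X.pr G) (X.ev G (mp M L)) v = law (Y.pr G) (Y.ev G L) v := by
  classical
  have := h fun z => if vals L z = v then 1 else 0
  simp only [mul_ite, mul_one, mul_zero] at this
  unfold law
  convert this using 3 with w
  all_goals first | exact vals_mp M L _ | rfl | (rw [← vals_mp]; rfl)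

theorem H_emb {X Y : Cf} {M : List Fm} (h : Emb G X Y M) (L : List Fm) :
    X.H G (mp M L) = Y.H G L := by
  have := h fun z => log (law (Y.pr G) (Y.ev G L) (vals L z))
  unfold H ent
  simp_rw [law_emb h]
  congr 1
  refine Eq.trans (sum_congr rfl fun w _ => ?_) this
  rw [← vals_mp]; rfl

theorem Emb.comp {X Y W : Cf} {M N : List Fm} (h : Emb G X Y M) (h' : Emb G Y W N) :
    Emb G X W (mp M N) := fun φ => by
  simp_rw [ap_mp]
  exact (h fun z => φ (ap N z)).trans (h' φ)

theorem ap_id (c : Cf) (w : c.Om G) : ap (units c.dim) (c.Z G w) = c.Z G w := by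
  funext k
  rw [ap_units]
  split_ifs with hk
  · rfl
  · exact (Z_zero c w k (not_lt.1 hk)).symm

theorem emb_id (c : Cf) : Emb G c c (units c.dim) := fun φ => by simp_rw [ap_id]

theorem ap_fst (Y : Cf) (S C : List Fm) (ab : List (Fm × Fm)) (w : Y.Om G × Y.Om G) :
    ap (units Y.dim) ((dbl Y S C ab).Z G w) = Y.Z G w.1 := by
  funext k
  rw [ap_units]
  split_ifs with hk
  · simp only [Z]; rw [if_pos hk]
  · exact (Z_zero Y _ k (not_lt.1 hk)).symm

theorem ap_snd {Y : Cf} {S C : List Fm} {ab : List (Fm × Fm)} (h : (dbl Y S C ab).ok = true)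
    {w : Y.Om G × Y.Om G} (hw : (dbl Y S C ab).pr G w ≠ 0) :
    ap (m2 Y.dim S ab) ((dbl Y S C ab).Z G w) = Y.Z G w.2 := by
  funext k
  exact (Z_snd h hw k).symm

theorem emb_fst (hG : G.Nonempty) (Y : Cf) (S C : List Fm) (ab : List (Fm × Fm)) :
    Emb G (dbl Y S C ab) Y (units Y.dim) := fun φ => by
  have := glue_fst (isP hG Y) (Y.ev G S) fun a => φ (Y.Z G a)
  refine Eq.trans (sum_congr rfl fun w _ => ?_) this
  rw [ap_fst Y S C ab w]; rfl

theorem emb_snd (hG : G.Nonempty) {Y : Cf} {S C : List Fm} {ab : List (Fm × Fm)}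
    (h : (dbl Y S C ab).ok = true) : Emb G (dbl Y S C ab) Y (m2 Y.dim S ab) := fun φ => by
  have := glue_snd (isP hG Y) (Y.ev G S) fun a => φ (Y.Z G a)
  refine Eq.trans (sum_congr rfl fun w _ => ?_) this
  by_cases hw : (dbl Y S C ab).pr G w = 0
  · have hw' : glue (Y.pr G) (Y.ev G S) w = 0 := hw
    rw [hw, hw', zero_mul, zero_mul]
  · rw [ap_snd h hw]; rfl

theorem len_m2 {Y : Cf} {S C : List Fm} {ab : List (Fm × Fm)} (h : (dbl Y S C ab).ok = true) :
    (m2 Y.dim S ab).length = Y.dim := by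
  simp only [ok, Bool.and_eq_true, beq_iff_eq] at h
  simp [m2, h.1.1.1.2]

theorem emb_swap {Y : Cf} {S C : List Fm} {ab : List (Fm × Fm)} (h : (dbl Y S C ab).ok = true) :
    Emb G (dbl Y S C ab) (dbl Y S C ab) (m2 Y.dim S ab ++ mp (units Y.dim) C) := fun φ => by
  refine Fintype.sum_equiv (Equiv.prodComm (Y.Om G) (Y.Om G)) _ _ fun w => ?_
  have e : (dbl Y S C ab).pr G (Equiv.prodComm (Y.Om G) (Y.Om G) w) = (dbl Y S C ab).pr G w :=
    glue_swap (Y.ev G S) w.2 w.1
  rw [e]
  by_cases hw : (dbl Y S C ab).pr G w = 0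
  · rw [hw, zero_mul, zero_mul]
  · rw [ap_app (len_m2 h), ap_snd h hw, ap_fst Y S C ab w]; rfl

theorem emb_lift {Y : Cf} {S C σ : List Fm} {ab : List (Fm × Fm)}
    (h : (dbl Y S C ab).ok = true) (hσ : Emb G Y Y σ) (hl : σ.length = Y.dim)
    (hS : ∀ z z', vals S (ap σ z) = vals S (ap σ z') ↔ vals S z = vals S z') :
    Emb G (dbl Y S C ab) (dbl Y S C ab)
      (mp (units Y.dim) σ ++ mp (mp (m2 Y.dim S ab) σ) C) := fun φ => by
  classical
  set l := law (Y.pr G) (Y.ev G S) with hlaw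
  let ψ : (ℕ → ℤ) → (ℕ → ℤ) → ℝ := fun z z' =>
    if vals S z = vals S z' then φ (jn Y.dim C z z') / l (vals S z) else 0
  have hl2 : ∀ a, l (vals S (ap σ (Y.Z G a))) = l (vals S (Y.Z G a)) := fun a => by
    rw [hlaw, ← law_emb hσ S]
    unfold law
    refine sum_congr rfl fun b _ => ?_
    have : Y.ev G (mp σ S) b = vals S (ap σ (Y.Z G b)) := vals_mp σ S _
    rw [this]
    by_cases hc : vals S (Y.Z G b) = vals S (Y.Z G a)
    · rw [if_pos ((hS _ _).2 hc), if_pos (show Y.ev G S b = _ from hc)]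
    · rw [if_neg fun e => hc ((hS _ _).1 e), if_neg (show ¬ Y.ev G S b = _ from hc)]
  have e1 : ∀ w : Y.Om G × Y.Om G, (dbl Y S C ab).pr G w *
      φ (ap (mp (units Y.dim) σ ++ mp (mp (m2 Y.dim S ab) σ) C) ((dbl Y S C ab).Z G w)) =
      Y.pr G w.1 * (Y.pr G w.2 * ψ (ap σ (Y.Z G w.1)) (ap σ (Y.Z G w.2))) := fun w => by
    have e : (dbl Y S C ab).pr G w * φ (jn Y.dim C (ap σ (Y.Z G w.1)) (ap σ (Y.Z G w.2))) =
        Y.pr G w.1 * (Y.pr G w.2 * ψ (ap σ (Y.Z G w.1)) (ap σ (Y.Z G w.2))) := by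
      show glue (Y.pr G) (Y.ev G S) w * _ = _
      simp only [ψ, glue, hS, hl2]
      by_cases hc : vals S (Y.Z G w.1) = vals S (Y.Z G w.2)
      · have hc' : Y.ev G S w.1 = Y.ev G S w.2 := hc
        rw [if_pos hc, if_pos hc']
        show _ / l (vals S (Y.Z G w.1)) * _ = _
        ring
      · have hc' : ¬ Y.ev G S w.1 = Y.ev G S w.2 := hc
        rw [if_neg hc, if_neg hc']; ring
    by_cases hw : (dbl Y S C ab).pr G w = 0
    · rw [← e, hw, zero_mul, zero_mul]
    · rw [← e, ap_app (n := Y.dim) (by simp [mp, hl]), ap_mp, ap_mp, ap_snd h hw,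
        ap_fst Y S C ab w]
  have e2 : ∀ w : Y.Om G × Y.Om G, (dbl Y S C ab).pr G w * φ ((dbl Y S C ab).Z G w) =
      Y.pr G w.1 * (Y.pr G w.2 * ψ (Y.Z G w.1) (Y.Z G w.2)) := fun w => by
    show glue (Y.pr G) (Y.ev G S) w * φ (jn Y.dim C (Y.Z G w.1) (Y.Z G w.2)) = _
    simp only [ψ, glue]
    by_cases hc : vals S (Y.Z G w.1) = vals S (Y.Z G w.2)
    · have hc' : Y.ev G S w.1 = Y.ev G S w.2 := hc
      rw [if_pos hc, if_pos hc']
      show _ / l (vals S (Y.Z G w.1)) * _ = _
      ring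
    · have hc' : ¬ Y.ev G S w.1 = Y.ev G S w.2 := hc
      rw [if_neg hc, if_neg hc']; ring
  refine (sum_congr rfl fun w _ => e1 w).trans (Eq.trans ?_ (sum_congr rfl fun w _ => e2 w).symm)
  show ∑ w : Y.Om G × Y.Om G, _ = ∑ w : Y.Om G × Y.Om G, _
  rw [Fintype.sum_prod_type, Fintype.sum_prod_type]
  simp only [← mul_sum]
  refine Eq.trans (sum_congr rfl fun a _ => ?_)
    (hσ fun z => ∑ b, Y.pr G b * ψ z (Y.Z G b))
  rw [hσ (ψ (ap σ (Y.Z G a)))]

end Cf

end Pool.Agent.P.MP_c18ee8_co.KT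
end
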