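import Pool.Agent.K.MP_c18ee8_co.C8
import Mathlib
import Pool.Agent.K.MP_c18ee8_co.C0

-- part Pool.Agent.P.MP_c18ee8_co.KTd
section

/-! Rows of a certificate and the resulting sum-difference inequality. -/

namespace Pool.Agent.P.MP_c18ee8_co.KT

open Finset Real Pool.Agent.P.MP_db4732_co.Ent Cf

abbrev Vs : Type := List (Cf × List Fm)

noncomputable def val (G : Finset (ℤ × ℤ)) (vs : Vs) (k : ℕ) : ℝ :=
  (vs.getD k (base, [])).1.H G (vs.getD k (base, [])).2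

noncomputable def rd : Fm → (ℕ → ℝ) → ℝ
  | [], _ => 0
  | a :: f, x => a * x 0 + rd f fun i => x (i + 1)

theorem rd_realize : True := by have := @rd.eq_def; trivial

theorem rd_vadd : ∀ (f g : Fm) (x : ℕ → ℝ), rd (vadd f g) x = rd f x + rd g x
  | [], g, x => by simp [vadd, rd]
  | a :: f, [], x => by simp [vadd, rd]
  | a :: f, b :: g, x => by simp only [vadd, rd, rd_vadd f g]; push_cast; ring

def one (k : ℕ) (w : ℤ) : Fm := List.replicate k 0 ++ [w]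

theorem rd_one (w : ℤ) : ∀ (k : ℕ) (x : ℕ → ℝ), rd (one k w) x = w * x k
  | 0, x => by simp [one, rd]
  | k + 1, x => by
    have := rd_one w k fun i => x (i + 1)
    simp only [one, List.replicate_succ, List.cons_append, rd] at this ⊢
    rw [this]; simp

theorem rd_nonpos : ∀ (f : Fm) (x : ℕ → ℝ), (f.all fun a => a ≤ 0) = true → (∀ i, 0 ≤ x i) →
    rd f x ≤ 0
  | [], _, _, _ => le_rfl
  | a :: f, x, h, hx => by
    simp only [List.all_cons, Bool.and_eq_true, decide_eq_true_eq] at h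
    have h1 : (a : ℝ) ≤ 0 := by exact_mod_cast h.1
    exact add_nonpos (mul_nonpos_of_nonpos_of_nonneg h1 (hx 0))
      (rd_nonpos f _ h.2 fun i => hx (i + 1))

def four (w : ℤ) (a b c d : ℕ) : Fm :=
  vadd (vadd (one a w) (one b w)) (vadd (one c (-w)) (one d (-w)))

theorem rd_four (w : ℤ) (a b c d : ℕ) (x : ℕ → ℝ) :
    rd (four w a b c d) x = w * (x a + x b - x c - x d) := by
  simp only [four, rd_vadd, rd_one]; push_cast; ring

abbrev Dc : Type := List (ℕ × ℤ × Fm) × List (ℤ × Fm)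

/-- a submodularity row inside the tower of variable `c` -/
structure Row where
  w : ℕ
  c : ℕ
  P : ℕ × Pa
  Q : ℕ × Pa
  Z : ℕ × Pa
  R : ℕ × Pa
  d1 : Dc
  d2 : Dc
  d3 : Dc

def tmL (vs : Vs) (c : Cf) (t : ℕ × Pa) : List Fm := mp (t.2.mat c) (vs.getD t.1 (base, [])).2

def tmOk (vs : Vs) (c : Cf) (t : ℕ × Pa) : Bool :=
  t.2.ok c && (t.2.tgt c).beq (vs.getD t.1 (base, [])).1

def rowOk (vs : Vs) (c : Cf) (r : Row) : Bool :=
  c.ok && tmOk vs c r.P && tmOk vs c r.Q && tmOk vs c r.Z && tmOk vs c r.R &&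
    det c.edges (tmL vs c r.Z) r.d1.2 r.d1.1 (tmL vs c r.P) &&
    det c.edges (tmL vs c r.Z) r.d2.2 r.d2.1 (tmL vs c r.Q) &&
    det c.edges (tmL vs c r.R) r.d3.2 r.d3.1 (tmL vs c r.P ++ tmL vs c r.Q)

/-- the entropy identity of a doubling: variables `x`, `s`, `y` -/
def ciOk (vs : Vs) (x s y : ℕ) : Cf → Bool
  | base => false
  | dbl Y S C ab => (dbl Y S C ab).ok && (vs.getD x (base, [])).2 == units (dbl Y S C ab).dim &&
      (vs.getD s (base, [])).1.beq Y && (vs.getD s (base, [])).2 == S &&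
      (vs.getD y (base, [])).1.beq Y && (vs.getD y (base, [])).2 == units Y.dim

variable {G : Finset (ℤ × ℤ)}

theorem tm_H (hG : G.Nonempty) {vs : Vs} {c : Cf} (hc : c.ok = true) {t : ℕ × Pa}
    (h : tmOk vs c t = true) : c.H G (tmL vs c t) = val G vs t.1 := by
  simp only [tmOk, Bool.and_eq_true] at h
  have e := Pa.emb hG t.2 c hc h.1
  rw [beq_eq _ _ h.2] at e
  exact H_emb e _

theorem row_sound (hG : G.Nonempty) (hD : Set.InjOn (fun p : ℤ × ℤ => p.1 - p.2) G) {vs : Vs}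
    {c : Cf} {r : Row} (h : rowOk vs c r = true) :
    0 ≤ rd (four r.w r.P.1 r.Q.1 r.Z.1 r.R.1) (val G vs) := by
  simp only [rowOk, Bool.and_eq_true] at h
  obtain ⟨⟨⟨⟨⟨⟨⟨hc, hP⟩, hQ⟩, hZ⟩, hR⟩, d1⟩, d2⟩, d3⟩ := h
  rw [rd_four, ← tm_H hG hc hP, ← tm_H hG hc hQ, ← tm_H hG hc hZ, ← tm_H hG hc hR]
  have := submod (isP hG c) (P := c.ev G (tmL vs c r.P)) (Q := c.ev G (tmL vs c r.Q))
    (Z := c.ev G (tmL vs c r.Z)) (R := c.ev G (tmL vs c r.R))
    (fun w w' a b e => det_Det hD hc d1 a b (ev_eq.1 e))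
    (fun w w' a b e => det_Det hD hc d2 a b (ev_eq.1 e))
    (fun w w' a b e => det_Det hD hc d3 a b (List.forall_mem_append.2
      ⟨ev_eq.1 (Prod.mk.inj e).1, ev_eq.1 (Prod.mk.inj e).2⟩))
  refine mul_nonneg (by simp) ?_
  unfold H
  linarith

theorem ci_sound (hG : G.Nonempty) {vs : Vs} {x s y : ℕ} (w : ℤ)
    (h : ciOk vs x s y (vs.getD x (base, [])).1 = true) : 0 ≤ rd (four w x s y y) (val G vs) := by
  rw [rd_four]
  unfold val
  generalize (vs.getD x (base, [])).1 = c at h ⊢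
  cases c with
  | base => simp [ciOk] at h
  | dbl Y S C ab =>
    simp only [ciOk, Bool.and_eq_true, beq_iff_eq] at h
    obtain ⟨⟨⟨⟨⟨hc, h1⟩, h2⟩, h3⟩, h4⟩, h5⟩ := h
    rw [h1, beq_eq _ _ h2, h3, beq_eq _ _ h4, h5]
    have := H_ci hG hc
    exact le_of_eq (by rw [show ∀ a b c : ℝ, a + b - c - c = a + b - 2 * c from
      fun _ _ _ => by ring, this]; simp)

def accR : List Row → Fm → Fm
  | [], f => f
  | r :: rs, f => accR rs (vadd (four r.w r.P.1 r.Q.1 r.Z.1 r.R.1) f)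

theorem accR_realize : True := by have := @accR.eq_def; trivial

def accC : List (ℤ × ℕ × ℕ × ℕ) → Fm → Fm
  | [], f => f
  | r :: rs, f => accC rs (vadd (four r.1 r.2.1 r.2.2.1 r.2.2.2 r.2.2.2) f)

theorem accC_realize : True := by have := @accC.eq_def; trivial

theorem accR_le {x : ℕ → ℝ} : ∀ (rs : List Row) (f : Fm),
    (∀ r ∈ rs, 0 ≤ rd (four r.w r.P.1 r.Q.1 r.Z.1 r.R.1) x) → rd f x ≤ rd (accR rs f) x
  | [], _, _ => le_rfl
  | r :: rs, f, h => by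
    have h1 := accR_le rs (vadd (four r.w r.P.1 r.Q.1 r.Z.1 r.R.1) f) fun t ht => h t (by simp [ht])
    rw [rd_vadd] at h1
    have := h r (by simp)
    simp only [accR]
    linarith

theorem accC_le {x : ℕ → ℝ} : ∀ (rs : List (ℤ × ℕ × ℕ × ℕ)) (f : Fm),
    (∀ r ∈ rs, 0 ≤ rd (four r.1 r.2.1 r.2.2.1 r.2.2.2 r.2.2.2) x) → rd f x ≤ rd (accC rs f) x
  | [], _, _ => le_rfl
  | r :: rs, f, h => by
    have h1 := accC_le rs (vadd (four r.1 r.2.1 r.2.2.1 r.2.2.2 r.2.2.2) f)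
      fun t ht => h t (by simp [ht])
    rw [rd_vadd] at h1
    have := h r (by simp)
    simp only [accC]
    linarith

def vs0 (vs : Vs) : Vs :=
  (base, []) :: (base, [[1]]) :: (base, [[0, 1]]) :: (base, [[1, 1]]) :: (base, units 2) :: vs

theorem H_nonneg (hG : G.Nonempty) (c : Cf) (L : List Fm) : 0 ≤ c.H G L := by
  rw [← ent_const (isP hG c)]
  exact ent_mono (isP hG c) fun _ _ _ _ _ => rfl

theorem H_le (hG : G.Nonempty) {f : Fm} {N : ℕ} {g : ℤ × ℤ → ℤ} (h : (G.image g).card ≤ N)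
    (hf : ∀ w : G, dot f (base.Z G w) = g w.1) : base.H G [f] ≤ log N := by
  have hN : 0 < N := lt_of_lt_of_le (hG.image g).card_pos h
  have := ent_le_add_log (isP hG base) (X := fun _ => ()) (R := base.ev G [f]) N hN
    fun _ _ => ⟨(G.image g).image fun x => [x], card_image_le.trans h, fun w _ _ =>
      mem_image.2 ⟨g w.1, mem_image_of_mem g w.2, by simp [ev, hf w]⟩⟩
  rwa [ent_const (isP hG base), zero_add] at this

theorem H_edge (hG : G.Nonempty) : base.H G (units 2) = log G.card := by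
  have h := H_top hG (c := base) rfl
  have e : base.H G (units 2) = ent (base.pr G) id := h
  have : (G.card : ℝ) ≠ 0 := by exact_mod_cast hG.card_pos.ne'
  rw [e, ent]
  simp only [law_id, id]
  show -∑ _w : G, (G.card : ℝ)⁻¹ * log (G.card : ℝ)⁻¹ = _
  simp [this]

theorem sd {vs : Vs} {rs : List Row} {cs : List (ℤ × ℕ × ℕ × ℕ)} {k : ℤ} {a b c q : ℕ}
    (hq : 0 < q)
    (h1 : (rs.all fun r => rowOk (vs0 vs) ((vs0 vs).getD r.c (base, [])).1 r) = true)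
    (h2 : (cs.all fun r => ciOk (vs0 vs) r.2.1 r.2.2.1 r.2.2.2
      ((vs0 vs).getD r.2.1 (base, [])).1) = true)
    (h3 : ((accC cs (accR rs [k, -a, -b, -c, q])).all fun x => x ≤ 0) = true)
    (F : Finset (ℤ × ℤ)) (hD : Set.InjOn (fun p : ℤ × ℤ => p.1 - p.2) F) :
    (F.card : ℝ) ^ q ≤ ((F.image fun p => p.1).card : ℝ) ^ a *
      ((F.image fun p => p.2).card : ℝ) ^ b * ((F.image fun p => p.1 + p.2).card : ℝ) ^ c := by
  rcases F.eq_empty_or_nonempty with rfl | hG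
  · rw [card_empty, Nat.cast_zero, zero_pow hq.ne']; positivity
  have m1 := H_le hG (f := [1]) (g := fun p => p.1) le_rfl fun w => by simp [dot, Z]
  have m2 := H_le hG (f := [0, 1]) (g := fun p => p.2) le_rfl fun w => by simp [dot, Z]
  have m3 := H_le hG (f := [1, 1]) (g := fun p => p.1 + p.2) le_rfl fun w => by simp [dot, Z]
  have m0 : base.H F [] = 0 := by
    rw [← ent_const (isP hG base)]
    exact ent_eq (isP hG base) fun _ _ _ _ => ⟨fun _ => rfl, fun _ => rfl⟩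
  have s1 := accR_le (x := val F (vs0 vs)) rs [k, -a, -b, -c, q]
    fun r hr => row_sound hG hD (List.all_eq_true.1 h1 r hr)
  have s2 := accC_le (x := val F (vs0 vs)) cs (accR rs [k, -a, -b, -c, q])
    fun r hr => ci_sound hG r.1 (List.all_eq_true.1 h2 r hr)
  have s3 := rd_nonpos _ (val F (vs0 vs)) h3 fun i => H_nonneg hG _ _
  have s4 : rd [k, -a, -b, -c, q] (val F (vs0 vs)) = k * base.H F [] - a * base.H F [[1]] -
      b * base.H F [[0, 1]] - c * base.H F [[1, 1]] + q * base.H F (units 2) := by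
    simp only [rd, val, vs0, List.getD_cons_zero, List.getD_cons_succ, zero_add]
    push_cast; ring
  rw [m0, H_edge hG] at s4
  have hp : ∀ g : ℤ × ℤ → ℤ, (0 : ℝ) < (F.image g).card := fun g => by
    exact_mod_cast (hG.image g).card_pos
  have p1 := pow_pos (hp fun p => p.1) a
  have p2 := pow_pos (hp fun p => p.2) b
  have p3 := pow_pos (hp fun p => p.1 + p.2) c
  have hc : (0 : ℝ) < F.card := by exact_mod_cast hG.card_pos
  rw [← log_le_log_iff (pow_pos hc q) (mul_pos (mul_pos p1 p2) p3),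
    log_mul (mul_pos p1 p2).ne' p3.ne', log_mul p1.ne' p2.ne', log_pow, log_pow, log_pow, log_pow]
  have t1 := mul_le_mul_of_nonneg_left m1 (Nat.cast_nonneg (α := ℝ) a)
  have t2 := mul_le_mul_of_nonneg_left m2 (Nat.cast_nonneg (α := ℝ) b)
  have t3 := mul_le_mul_of_nonneg_left m3 (Nat.cast_nonneg (α := ℝ) c)
  linarith

/-- the same inequality as a bound for the number of differences -/
theorem sd_exp {a b c q : ℕ} (hq : 0 < q) (h : ∀ F : Finset (ℤ × ℤ),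
    Set.InjOn (fun p : ℤ × ℤ => p.1 - p.2) F → (F.card : ℝ) ^ q ≤
      ((F.image fun p => p.1).card : ℝ) ^ a * ((F.image fun p => p.2).card : ℝ) ^ b *
        ((F.image fun p => p.1 + p.2).card : ℝ) ^ c)
    (G : Finset (ℤ × ℤ)) (N : ℕ) (n1 : (G.image fun p => p.1).card ≤ N)
    (n2 : (G.image fun p => p.2).card ≤ N) (n3 : (G.image fun p => p.1 + p.2).card ≤ N) :
    ((G.image fun p => p.1 - p.2).card : ℝ) ≤ (N : ℝ) ^ (((a + b + c : ℕ) : ℝ) / q) := by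
  classical
  obtain ⟨F, hF, hD, hI⟩ := exists_subset_injOn_image_eq_of_surjOn (f := fun p : ℤ × ℤ => p.1 - p.2)
    (G : Set (ℤ × ℤ)) (G.image fun p => p.1 - p.2) (by simp [Set.SurjOn])
  have hF' : F ⊆ G := by exact_mod_cast hF
  have e : ∀ g : ℤ × ℤ → ℤ, (G.image g).card ≤ N → ((F.image g).card : ℝ) ≤ N := fun g hg => by
    exact_mod_cast (card_le_card (image_subset_image hF')).trans hg
  have e1 := e _ n1
  have e2 := e _ n2
  have e3 := e _ n3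
  rw [← hI, card_image_of_injOn hD]
  refine le_of_pow_le_pow_left₀ hq.ne' (by positivity) ((h F hD).trans ?_)
  rw [← rpow_mul_natCast (Nat.cast_nonneg N), div_mul_cancel₀ _ (by exact_mod_cast hq.ne'),
    rpow_natCast, pow_add, pow_add]
  gcongr

end Pool.Agent.P.MP_c18ee8_co.KT
end

-- part Pool.Agent.P.MP_c18ee8_co.KTe
section

/-! A certificate for the sum-difference exponent 122/67. -/

namespace Pool.Agent.P.MP_c18ee8_co.KT.A

def c1 : Cf := .dbl .base [[1]] [[0, 1]]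
  [([1], []), ([], [1])]

def c2 : Cf := .dbl c1 [[0, 1], [0, 0, 1]] [[1]]
  [([], [1]), ([1], []), ([0, 1], [])]

def c3 : Cf := .dbl c2 [[1, 1], [0, 0, 1, -1], [0, 0, 0, 1]] [[1]]
  [([], [1]), ([1], [-1]), ([0, 1, 1], []), ([0, 0, 1], [])]

def vs : Vs := [
  (c1, units 3),
  (c2, units 4),
  (c3, units 5),
  (c1, [[0, 1], [0, 0, 1]]),
  (c2, [[1, 1], [0, 0, 1, -1], [0, 0, 0, 1]]),
  (c1, [[1, 1, 1]]),
  (c2, [[1, 1, 0, 1]]),
  (c2, [[1], [0, 1], [0, 0, 0, 1]]),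
  (c2, [[1], [0, 0, 0, 1]]),
  (c3, [[1, 0, 0, 1, -1]]),
  (c3, [[0, 1], [0, 0, 0, 1], [1, 1, 0, 0, -1]]),
  (c3, [[1, 0, -1, 0, -1]]),
  (c3, [[1], [0, 0, 1], [0, 0, 0, 0, 1]]),
  (c1, [[0, 1], [1, 0, 1]]),
  (c2, [[1], [0, 1, 0, 1]]),
  (c3, [[1], [0, 0, 1, 0, 1]]),
  (c3, [[0, 1], [1, 1, 0, 1, -1]]),
  (c3, [[0, 1], [0, 0, 1], [0, 0, 0, 1], [1, 1, 0, 0, -1]]),
  (c3, [[1], [0, 0, 0, 1], [0, 0, 1, 0, 1], [1, 2, 0, 1, -1]]),
  (c3, [[0, 0, 0, 1], [1, 2, 0, 1, -1], [1, 0, -1, 0, -1]]),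
  (c3, [[1], [0, 0, 0, 1], [0, 0, 1, 0, 1]]),
  (c3, [[0, 0, 0, 1], [1, 0, -1, 0, -1]]),
  (c3, [[1], [0, 0, 1], [0, 0, 0, 1], [0, 0, 0, 0, 1]]),
  (c3, [[0, 1, 0, 1], [1, 0, -1, 0, -1]]),
  (c3, [[1], [0, 1, 0, 1], [0, 0, 1, 0, 1]]),
  (c3, [[1, 0, 1], [0, 0, 1, -1, 1]]),
  (c3, [[0, 1], [1, 0, 1], [1, 1, 0, 1, -1]])]

def rs0 : List Row := [
  ⟨14, 5, (2, .l .i), (2, .r .i), (0, .l .i), (8, .i),
    ([], []), ([], []), ([], [(1, [1]), (1, [0, 1])])⟩,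
  ⟨6, 6, (10, .l .i), (11, .i), (0, .l (.l .i)), (9, .i),
    ([], []), ([], []), ([(3, 1, [-1, 1])], [(1, [0, -1, 1]), (1, [-1, 1]), (1, [1])])⟩,
  ⟨2, 6, (12, .i), (12, .u (.s .i) .i [(1, [0, 1]), (1, [1])] [(1, [0, 1]), (1, [1])]), (13, .i), (6, .i),
    ([], [(1, [1]), (1, [0, 0, 1])]), ([], [(1, [1]), (1, [0, 0, 1])]), ([], [(1, [1]), (1, [0, 1]), (1, [0, 0, 0, 0, 1]), (1, [0, 0, 1])])⟩,
  ⟨3, 7, (2, .l (.l (.l .i))), (14, .s .i), (0, .l (.l (.l .i))), (15, .i),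
    ([], []), ([], []), ([(6, 1, [-1, 1])], [(1, [0, 0, 1]), (1, [1]), (1, [0, 1])])⟩,
  ⟨2, 7, (1, .l (.l (.l .i))), (16, .s .i), (0, .l (.l (.l .i))), (17, .i),
    ([], []), ([], []), ([(5, 1, [1, 1])], [(1, [0, 0, 1]), (1, [0, 1]), (1, [1])])⟩,
  ⟨12, 5, (2, .l .i), (3, .r .i), (0, .l .i), (18, .i),
    ([], []), ([], []), ([], [(1, [1]), (1, [0, 1])])⟩,
  ⟨13, 6, (1, .l (.l .i)), (3, .r (.l .i)), (0, .l (.l .i)), (19, .i),
    ([], []), ([], []), ([], [(1, [1]), (1, [0, 1])])⟩,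
  ⟨2, 7, (1, .l (.l (.l .i))), (3, .r (.l (.r .i))), (0, .l (.l (.l .i))), (20, .i),
    ([], []), ([], []), ([], [(1, [1]), (1, [0, 1])])⟩,
  ⟨3, 7, (2, .l (.l (.l .i))), (3, .r (.r (.l .i))), (0, .l (.l (.l .i))), (21, .i),
    ([], []), ([], []), ([], [(1, [1]), (1, [0, 1])])⟩,
  ⟨6, 6, (19, .i), (19, .s .i), (11, .i), (12, .i),
    ([], [(1, [1, 1])]), ([], [(1, [1, 1])]), ([], [(1, [1]), (1, [0, 1, -1]), (1, [0, 0, 1])])⟩,
  ⟨1, 7, (22, .i), (23, .i), (24, .i), (7, .i),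
    ([], [(1, [0, 0, 1]), (1, [1, 0, 1, 1]), (1, [-1, -1, 0, 1])]), ([], [(1, [0, 1]), (1, [0, 0, 0, 1]), (1, [1, 0, -1])]), ([], [(1, [0, 0, 0, 0, 1]), (1, [1]), (1, [0, 1]), (1, [0, 0, 1]), (1, [1, 0, 0, -1, 1])])⟩,
  ⟨1, 7, (25, .i), (24, .i), (26, .i), (23, .i),
    ([], [(1, [0, 1]), (1, [1, 0, -1])]), ([], [(1, [1]), (1, [0, 0, 1])]), ([], [(1, [1]), (1, [0, 1]), (1, [0, 0, 1]), (1, [0, 0, 0, 0, 1])])⟩,
  ⟨6, 5, (18, .i), (18, .s .i), (10, .i), (5, .i),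
    ([], [(1, [1, 1])]), ([], [(1, [1, 1])]), ([], [(1, [0, 1, -1]), (1, [1]), (1, [0, 0, 1])])⟩,
  ⟨3, 7, (5, .l (.r .i)), (15, .i), (4, .l (.r (.l .i))), (22, .i),
    ([], [(1, [1]), (1, [0, 1])]), ([], [(1, [0, 1]), (1, [1])]), ([], [(1, [0, 1]), (1, [0, 0, 1]), (1, [1]), (1, [0, 0, 0, 0, 0, 1])])⟩,
  ⟨1, 7, (13, .l .i), (19, .r (.u (.s .i) (.s .i) [(1, [0, 1]), (1, [1])] [(1, [0, 1]), (1, [1])])), (1, .l (.r (.l .i))), (25, .i),
    ([], [(1, [0, 1])]), ([], [(1, [1])]), ([], [(1, [1]), (1, [0, 1]), (1, [0, 0, 0, 1])])⟩,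
  ⟨1, 7, (13, .l .i), (26, .s .i), (1, .l (.r (.l .i))), (27, .i),
    ([], [(1, [0, 1])]), ([], [(1, [1])]), ([(5, 1, [1, 0, 0, 1])], [(1, [0, 0, 1]), (1, [0, 1]), (1, [0, 0, 0, 1]), (1, [1])])⟩,
  ⟨2, 7, (12, .l (.u (.s .i) .i [(1, [0, 1]), (1, [1])] [(1, [0, 1]), (1, [1])])), (17, .i), (4, .l (.l (.r .i))), (27, .i),
    ([], [(1, [1]), (1, [0, 1])]), ([], [(1, [1]), (1, [0, 1])]), ([], [(1, [1]), (1, [0, 1]), (1, [0, 0, 1]), (1, [0, 0, 0, 0, 0, 1])])⟩,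
  ⟨2, 7, (20, .i), (28, .i), (16, .i), (29, .i),
    ([], [(1, [1, -1])]), ([], [(1, [0, 1])]), ([], [(1, [1]), (1, [0, 0, 1]), (1, [0, 1])])⟩,
  ⟨3, 7, (21, .i), (30, .i), (14, .i), (31, .i),
    ([], [(1, [-1, 1])]), ([], [(1, [1, -1])]), ([], [(1, [1]), (1, [0, 0, 1]), (1, [0, 1])])⟩,
  ⟨2, 7, (29, .i), (22, .i), (28, .i), (7, .i),
    ([], [(1, [0, 1]), (1, [1, 0, -1])]), ([], [(1, [1, 0, 1]), (1, [-1, -1, 0, 1])]), ([], [(1, [1]), (1, [0, 0, 0, 1]), (1, [0, 0, 0, 0, 1]), (1, [0, 1, 0, -1]), (1, [0, 0, 1, 0, -1])])⟩]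

def rs1 : List Row := [
  ⟨3, 7, (27, .i), (31, .i), (30, .i), (7, .i),
    ([], [(1, [1, 1]), (1, [0, 1, -1, 1])]), ([], [(1, [0, 1]), (1, [1, 1, -1])]), ([], [(1, [1]), (1, [0, 0, 0, 0, 1]), (1, [0, 1]), (1, [0, 0, 1]), (1, [0, 0, 0, 1])])⟩]

def rs : List Row := rs0 ++ rs1

def cs : List (ℤ × ℕ × ℕ × ℕ) := [(31, 5, 1, 4), (14, 6, 8, 5), (6, 7, 9, 6)]

theorem main (F : Finset (ℤ × ℤ)) (hD : Set.InjOn (fun p : ℤ × ℤ => p.1 - p.2) F) :
    (F.card : ℝ) ^ 67 ≤ ((F.image fun p => p.1).card : ℝ) ^ 46 *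
      ((F.image fun p => p.2).card : ℝ) ^ 46 * ((F.image fun p => p.1 + p.2).card : ℝ) ^ 30 :=
  sd (vs := vs) (rs := rs) (cs := cs) (k := 0)
    (by norm_num) (by decide +kernel) (by decide +kernel) (by decide +kernel) F hD

theorem sumdiff (G : Finset (ℤ × ℤ)) (N : ℕ) (n1 : (G.image fun p => p.1).card ≤ N)
    (n2 : (G.image fun p => p.2).card ≤ N) (n3 : (G.image fun p => p.1 + p.2).card ≤ N) :
    ((G.image fun p => p.1 - p.2).card : ℝ) ≤ (N : ℝ) ^ ((122 : ℝ) / 67) := by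
  have := sd_exp (by norm_num) main G N n1 n2 n3
  norm_num at this ⊢
  exact this

end Pool.Agent.P.MP_c18ee8_co.KT.A
end

-- part Pool.Agent.P.MP_c18ee8_co.KatzTao
section

namespace Pool.Agent.P.MP_c18ee8_co

open Finset

theorem holder4 {ι : Type*} (s : Finset ι) (r f1 f2 f3 f4 : ι → ℝ)
    (hr : ∀ i ∈ s, 0 ≤ r i)
    (h1 : ∀ i ∈ s, 0 ≤ f1 i) (h2 : ∀ i ∈ s, 0 ≤ f2 i) (h3 : ∀ i ∈ s, 0 ≤ f3 i)
    (h4 : ∀ i ∈ s, 0 ≤ f4 i)
    (h : ∀ i ∈ s, r i ^ 4 = f1 i * f2 i * (f3 i * f4 i)) :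
    (∑ i ∈ s, r i) ^ 4 ≤
      (∑ i ∈ s, f1 i) * (∑ i ∈ s, f2 i) * ((∑ i ∈ s, f3 i) * (∑ i ∈ s, f4 i)) := by
  have a1 : (∑ i ∈ s, r i) ^ 2 ≤
      (∑ i ∈ s, √(f1 i * f2 i)) * (∑ i ∈ s, √(f3 i * f4 i)) := by
    apply sum_sq_le_sum_mul_sum_of_sq_eq_mul s (fun i _ => Real.sqrt_nonneg _)
      (fun i _ => Real.sqrt_nonneg _)
    intro i hi
    rw [← Real.sqrt_mul (mul_nonneg (h1 i hi) (h2 i hi)), ← h i hi,
      show r i ^ 4 = (r i ^ 2) ^ 2 by ring, Real.sqrt_sq (by positivity)]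
  have a2 : (∑ i ∈ s, √(f1 i * f2 i)) ^ 2 ≤ (∑ i ∈ s, f1 i) * (∑ i ∈ s, f2 i) := by
    apply sum_sq_le_sum_mul_sum_of_sq_eq_mul s h1 h2
    intro i hi
    exact Real.sq_sqrt (mul_nonneg (h1 i hi) (h2 i hi))
  have a3 : (∑ i ∈ s, √(f3 i * f4 i)) ^ 2 ≤ (∑ i ∈ s, f3 i) * (∑ i ∈ s, f4 i) := by
    apply sum_sq_le_sum_mul_sum_of_sq_eq_mul s h3 h4
    intro i hi
    exact Real.sq_sqrt (mul_nonneg (h3 i hi) (h4 i hi))
  calc (∑ i ∈ s, r i) ^ 4 = ((∑ i ∈ s, r i) ^ 2) ^ 2 := by ring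
    _ ≤ ((∑ i ∈ s, √(f1 i * f2 i)) * (∑ i ∈ s, √(f3 i * f4 i))) ^ 2 := by
        gcongr
    _ = (∑ i ∈ s, √(f1 i * f2 i)) ^ 2 * (∑ i ∈ s, √(f3 i * f4 i)) ^ 2 := by ring
    _ ≤ _ := by
        apply mul_le_mul a2 a3 (by positivity)
        exact mul_nonneg (sum_nonneg h1) (sum_nonneg h2)

/-- size of the fibre through a point -/
def fib {α β : Type*} [DecidableEq β] (V : Finset α) (f : α → β) (v : α) : ℕ :=
  (V.filter fun u => f u = f v).card

theorem fib_pos {α β : Type*} [DecidableEq β] (V : Finset α) (f : α → β) {v : α} (hv : v ∈ V) :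
    0 < fib V f v := card_pos.2 ⟨v, by simp [hv]⟩

theorem sum_inv_fib {α β : Type*} [DecidableEq β] (V : Finset α) (f : α → β) :
    ∑ v ∈ V, (1 : ℝ) / fib V f v = (V.image f).card := by
  rw [← sum_fiberwise_of_maps_to (g := f) (t := V.image f) (fun v hv => mem_image_of_mem f hv)]
  rw [card_eq_sum_ones, Nat.cast_sum]
  apply sum_congr rfl
  intro b hb
  obtain ⟨v0, hv0, rfl⟩ := mem_image.1 hb
  have : ∀ v ∈ V.filter (fun u => f u = f v0), (1 : ℝ) / fib V f v = 1 / fib V f v0 := by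
    intro v hv
    have := (mem_filter.1 hv).2
    simp [fib, this]
  rw [sum_congr rfl this, sum_const, nsmul_eq_mul]
  have hp : (0 : ℝ) < fib V f v0 := by exact_mod_cast fib_pos V f hv0
  have : ((V.filter fun u => f u = f v0).card : ℝ) = fib V f v0 := rfl
  rw [this]
  field_simp
  simp

/-- pairs in the same fibre -/
def prs {α β : Type*} [DecidableEq β] (V : Finset α) (f : α → β) : Finset (α × α) :=
  (V ×ˢ V).filter fun p => f p.2 = f p.1

theorem sum_prs_fst {α β : Type*} [DecidableEq β] (V : Finset α) (f : α → β) (g : α → ℝ) :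
    ∑ p ∈ prs V f, g p.1 = ∑ v ∈ V, g v * fib V f v := by
  unfold prs
  rw [sum_filter, sum_product]
  apply sum_congr rfl
  intro v _
  rw [← sum_filter]
  simp [fib, mul_comm]

theorem sum_prs_snd {α β : Type*} [DecidableEq β] (V : Finset α) (f : α → β) (g : α → ℝ) :
    ∑ p ∈ prs V f, g p.2 = ∑ v ∈ V, g v * fib V f v := by
  unfold prs
  rw [sum_filter, sum_product_right]
  apply sum_congr rfl
  intro v _
  rw [← sum_filter]
  simp [fib, mul_comm, eq_comm]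

theorem card_sq_le_prs {α β : Type*} [DecidableEq β] (V : Finset α) (f : α → β) :
    ((V.card : ℝ)) ^ 2 ≤ (prs V f).card * (V.image f).card := by
  have h := sum_sq_le_sum_mul_sum_of_sq_eq_mul V (r := fun _ => (1 : ℝ))
    (f := fun v => (fib V f v : ℝ)) (g := fun v => (1 : ℝ) / fib V f v)
    (fun v _ => by positivity) (fun v _ => by positivity)
    (fun v hv => by
      have hp : (0 : ℝ) < fib V f v := by exact_mod_cast fib_pos V f hv
      field_simp)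
  rw [sum_inv_fib] at h
  have h2 := sum_prs_fst V f (fun _ => (1 : ℝ))
  simp only [one_mul, sum_const, nsmul_eq_mul, mul_one] at h2 h
  rw [h2]; exact h

/-- chains of length three -/
def chains {α β1 β2 β3 : Type*} [DecidableEq β1] [DecidableEq β2] [DecidableEq β3]
    (V : Finset α) (f1 : α → β1) (f2 : α → β2) (f3 : α → β3) : Finset ((α × α) × (α × α)) :=
  (prs V f2 ×ˢ (V ×ˢ V)).filter fun q => f1 q.2.1 = f1 q.1.1 ∧ f3 q.2.2 = f3 q.1.2

theorem card_chains {α β1 β2 β3 : Type*} [DecidableEq β1] [DecidableEq β2] [DecidableEq β3]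
    (V : Finset α) (f1 : α → β1) (f2 : α → β2) (f3 : α → β3) :
    ((chains V f1 f2 f3).card : ℝ) = ∑ p ∈ prs V f2, (fib V f1 p.1 : ℝ) * fib V f3 p.2 := by
  unfold chains
  rw [card_filter, sum_product, Nat.cast_sum]
  apply sum_congr rfl
  intro p _
  rw [← card_filter]
  have : ((V ×ˢ V).filter fun q : α × α => f1 q.1 = f1 p.1 ∧ f3 q.2 = f3 p.2) =
      (V.filter fun u => f1 u = f1 p.1) ×ˢ (V.filter fun u => f3 u = f3 p.2) := by
    ext q; simp only [mem_filter, mem_product]; tauto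
  rw [this, card_product]
  simp [fib]

theorem chain_bound {α β1 β2 β3 : Type*} [DecidableEq β1] [DecidableEq β2] [DecidableEq β3]
    (V : Finset α) (f1 : α → β1) (f2 : α → β2) (f3 : α → β3) :
    (V.card : ℝ) ^ 4 ≤ (chains V f1 f2 f3).card * (V.image f1).card *
      ((V.image f3).card * (V.image f2).card) := by
  have hmem : ∀ p ∈ prs V f2, p.1 ∈ V ∧ p.2 ∈ V ∧ fib V f2 p.2 = fib V f2 p.1 := by
    intro p hp
    simp only [prs, mem_filter, mem_product] at hp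
    exact ⟨hp.1.1, hp.1.2, by simp [fib, hp.2]⟩
  have h := holder4 (prs V f2) (fun p => (1 : ℝ) / fib V f2 p.1)
    (fun p => (fib V f1 p.1 : ℝ) * fib V f3 p.2)
    (fun p => (1 : ℝ) / (fib V f1 p.1 * fib V f2 p.1))
    (fun p => (1 : ℝ) / (fib V f3 p.2 * fib V f2 p.2))
    (fun p => (1 : ℝ) / (fib V f2 p.1 * fib V f2 p.1))
    (fun _ _ => by positivity) (fun _ _ => by positivity) (fun _ _ => by positivity)
    (fun _ _ => by positivity) (fun _ _ => by positivity)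
    (fun p hp => by
      obtain ⟨a, b, c⟩ := hmem p hp
      have h1 : (0 : ℝ) < fib V f1 p.1 := by exact_mod_cast fib_pos V f1 a
      have h2 : (0 : ℝ) < fib V f2 p.1 := by exact_mod_cast fib_pos V f2 a
      have h3 : (0 : ℝ) < fib V f3 p.2 := by exact_mod_cast fib_pos V f3 b
      simp only [c]
      field_simp)
  rw [← card_chains] at h
  rw [sum_prs_fst V f2 (fun v => (1 : ℝ) / fib V f2 v),
    sum_prs_fst V f2 (fun v => (1 : ℝ) / (fib V f1 v * fib V f2 v)),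
    sum_prs_snd V f2 (fun v => (1 : ℝ) / (fib V f3 v * fib V f2 v)),
    sum_prs_fst V f2 (fun v => (1 : ℝ) / (fib V f2 v * fib V f2 v))] at h
  have e0 : ∑ v ∈ V, (1 : ℝ) / fib V f2 v * fib V f2 v = V.card := by
    rw [card_eq_sum_ones, Nat.cast_sum]
    apply sum_congr rfl
    intro v hv
    have h2 : (0 : ℝ) < fib V f2 v := by exact_mod_cast fib_pos V f2 hv
    field_simp
    simp
  have e1 : ∀ g : α → ℕ, ∑ v ∈ V, (1 : ℝ) / (g v * fib V f2 v) * fib V f2 v =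
      ∑ v ∈ V, (1 : ℝ) / g v := by
    intro g
    apply sum_congr rfl
    intro v hv
    have h2 : (0 : ℝ) < fib V f2 v := by exact_mod_cast fib_pos V f2 hv
    by_cases hg : (g v : ℝ) = 0
    · simp [hg]
    · field_simp
  rw [e0, e1, e1, e1, sum_inv_fib, sum_inv_fib, sum_inv_fib] at h
  exact h

/-- The sum-difference inequality with exponent 11/6, asymmetric form. -/
theorem katz_tao {τ : Type*} [DecidableEq τ] (T : Finset τ) (a b : τ → ℤ)
    (hinj : ∀ s ∈ T, ∀ t ∈ T, a s - b s = a t - b t → s = t) :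
    (T.card : ℝ) ^ 6 ≤ ((T.image a).card : ℝ) ^ 4 * ((T.image b).card : ℝ) ^ 4 *
      ((T.image fun t => a t + b t).card : ℝ) ^ 3 := by
  set A := T.image a
  set B := T.image b
  set C := T.image fun t => a t + b t
  set V := prs T a with hV
  have hVm : ∀ v ∈ V, v.1 ∈ T ∧ v.2 ∈ T ∧ a v.2 = a v.1 := by
    intro v hv
    simp only [hV, prs, mem_filter, mem_product] at hv
    exact ⟨hv.1.1, hv.1.2, hv.2⟩
  let f1 : τ × τ → ℤ × ℤ := fun v => (a v.1 + b v.1, a v.2 + b v.2)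
  let f2 : τ × τ → ℤ × ℤ := fun v => (b v.1, b v.2)
  let f3 : τ × τ → ℤ × ℤ := fun v => (a v.1 + b v.1, b v.2)
  have c1 : ((V.image f1).card : ℝ) ≤ (C.card : ℝ) * C.card := by
    have : V.image f1 ⊆ C ×ˢ C := by
      intro x hx
      obtain ⟨v, hv, rfl⟩ := mem_image.1 hx
      obtain ⟨h1, h2, _⟩ := hVm v hv
      exact mem_product.2 ⟨mem_image_of_mem (fun t => a t + b t) h1,
        mem_image_of_mem (fun t => a t + b t) h2⟩
    have := card_le_card this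
    rw [card_product] at this
    exact_mod_cast this
  have c2 : ((V.image f2).card : ℝ) ≤ (B.card : ℝ) * B.card := by
    have : V.image f2 ⊆ B ×ˢ B := by
      intro x hx
      obtain ⟨v, hv, rfl⟩ := mem_image.1 hx
      obtain ⟨h1, h2, _⟩ := hVm v hv
      exact mem_product.2 ⟨mem_image_of_mem b h1, mem_image_of_mem b h2⟩
    have := card_le_card this
    rw [card_product] at this
    exact_mod_cast this
  have c3 : ((V.image f3).card : ℝ) ≤ (C.card : ℝ) * B.card := by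
    have : V.image f3 ⊆ C ×ˢ B := by
      intro x hx
      obtain ⟨v, hv, rfl⟩ := mem_image.1 hx
      obtain ⟨h1, h2, _⟩ := hVm v hv
      exact mem_product.2 ⟨mem_image_of_mem (fun t => a t + b t) h1, mem_image_of_mem b h2⟩
    have := card_le_card this
    rw [card_product] at this
    exact_mod_cast this
  have c4 : ((chains V f1 f2 f3).card : ℝ) ≤ (V.card : ℝ) * (A.card * B.card) := by
    have : (chains V f1 f2 f3).card ≤ (V ×ˢ (A ×ˢ B)).card := by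
      apply card_le_card_of_injOn (fun q => (q.2.1, (a q.1.2.1, b q.2.2.1)))
      · intro q hq
        simp only [chains, prs, coe_filter, mem_product, mem_filter, Set.mem_ofPred_eq] at hq
        obtain ⟨⟨⟨⟨h1, h2⟩, _⟩, h0, h3⟩, _⟩ := hq
        simp only [coe_product, Set.mem_prod, mem_coe]
        exact ⟨h0, mem_image_of_mem a (hVm _ h2).1, mem_image_of_mem b (hVm _ h3).1⟩
      · rintro ⟨⟨v1, v2⟩, v0, v3⟩ hq ⟨⟨w1, w2⟩, w0, w3⟩ hq' he
        simp only [chains, prs, coe_filter, mem_product, mem_filter, Set.mem_ofPred_eq] at hq hq'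
        obtain ⟨⟨⟨⟨h1, h2⟩, e2⟩, h0, h3⟩, e1, e3⟩ := hq
        obtain ⟨⟨⟨⟨k1, k2⟩, d2⟩, k0, k3⟩, d1, d3⟩ := hq'
        simp only [Prod.mk.injEq, f1, f2, f3] at he e1 e2 e3 d1 d2 d3
        obtain ⟨rfl, ha, hb⟩ := he
        obtain ⟨p0, p0', q0⟩ := hVm _ h0
        obtain ⟨p1, p1', q1⟩ := hVm _ h1
        obtain ⟨p2, p2', q2⟩ := hVm _ h2
        obtain ⟨p3, p3', q3⟩ := hVm _ h3
        obtain ⟨r1, r1', s1⟩ := hVm _ k1
        obtain ⟨r2, r2', s2⟩ := hVm _ k2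
        obtain ⟨r3, r3', s3⟩ := hVm _ k3
        have x32 : v3.2 = w3.2 := hinj _ p3' _ r3' (by omega)
        have y32a : a v3.2 = a w3.2 := by rw [x32]
        have y32b : b v3.2 = b w3.2 := by rw [x32]
        have x31 : v3.1 = w3.1 := hinj _ p3 _ r3 (by omega)
        have x22 : v2.2 = w2.2 := hinj _ p2' _ r2' (by omega)
        have x21 : v2.1 = w2.1 := hinj _ p2 _ r2 (by omega)
        have y21b : b v2.1 = b w2.1 := by rw [x21]
        have y22b : b v2.2 = b w2.2 := by rw [x22]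
        have x11 : v1.1 = w1.1 := hinj _ p1 _ r1 (by omega)
        have x12 : v1.2 = w1.2 := hinj _ p1' _ r1' (by omega)
        simp only [Prod.mk.injEq, true_and]
        exact ⟨⟨Prod.ext x11 x12, Prod.ext x21 x22⟩, Prod.ext x31 x32⟩
    rw [card_product, card_product] at this
    exact_mod_cast this
  have c5 := chain_bound V f1 f2 f3
  have c6 : (T.card : ℝ) ^ 2 ≤ V.card * A.card := card_sq_le_prs T a
  have c7 : (V.card : ℝ) ^ 4 ≤ V.card * (A.card * (B.card : ℝ) ^ 4 * (C.card : ℝ) ^ 3) := by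
    calc (V.card : ℝ) ^ 4 ≤ _ := c5
      _ ≤ ((V.card : ℝ) * (A.card * B.card)) * (C.card * C.card) *
          ((C.card * B.card) * (B.card * B.card)) := by gcongr
      _ = _ := by ring
  have c8 : (V.card : ℝ) ^ 3 ≤ A.card * (B.card : ℝ) ^ 4 * (C.card : ℝ) ^ 3 := by
    rcases Nat.eq_zero_or_pos V.card with h0 | h0
    · rw [h0]; simp; positivity
    · have hp : (0 : ℝ) < V.card := by exact_mod_cast h0
      apply le_of_mul_le_mul_left _ hp
      calc (V.card : ℝ) * V.card ^ 3 = V.card ^ 4 := by ring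
        _ ≤ _ := c7
  calc (T.card : ℝ) ^ 6 = ((T.card : ℝ) ^ 2) ^ 3 := by ring
    _ ≤ ((V.card : ℝ) * A.card) ^ 3 := by gcongr
    _ = (V.card : ℝ) ^ 3 * (A.card : ℝ) ^ 3 := by ring
    _ ≤ (A.card * (B.card : ℝ) ^ 4 * (C.card : ℝ) ^ 3) * (A.card : ℝ) ^ 3 := by gcongr
    _ = _ := by ring

end Pool.Agent.P.MP_c18ee8_co
end

-- part Pool.Agent.P.MP_c18ee8_co.Upper
section

namespace Pool.Agent.P.MP_c18ee8_co

open Finset

theorem card_image_le_of {τ : Type*} (P : Finset τ) (a f : τ → ℤ) (X : Finset ℤ) (g : ℤ → ℤ)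
    (h1 : ∀ p ∈ P, f p ∈ X) (h2 : ∀ p, a p = g (f p)) : (P.image a).card ≤ X.card := by
  have : P.image a ⊆ X.image g := by
    intro x hx
    obtain ⟨p, hp, rfl⟩ := mem_image.1 hx
    rw [h2]
    exact mem_image_of_mem g (h1 p hp)
  exact (card_le_card this).trans card_image_le

theorem reduce_dir (k : Fin 4) (P : Finset (ℤ × ℤ)) (X : Fin 4 → Finset ℤ)
    (hinj : ∀ p ∈ P, ∀ q ∈ P, phi k p = phi k q → p = q)
    (hX : ∀ j, j ≠ k → ∀ p ∈ P, phi j p ∈ X j) :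
    ∃ a b : ℤ × ℤ → ℤ, (∀ s ∈ P, ∀ t ∈ P, a s - b s = a t - b t → s = t) ∧
      (P.image a).card ≤ (X (![3, 3, 0, 0] k)).card ∧
      (P.image b).card ≤ (X (![2, 2, 1, 1] k)).card ∧
      (P.image fun t => a t + b t).card ≤ (X (![1, 0, 3, 2] k)).card := by
  fin_cases k
  · refine ⟨fun p => p.1 + p.2, fun p => p.2 - p.1, ?_, ?_, ?_, ?_⟩
    · intro s hs t ht h
      apply hinj s hs t ht
      simp [phi] at h ⊢; omega
    · exact card_image_le_of P _ (phi 3) _ id (hX 3 (by decide)) (by intro p; simp [phi])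
    · exact card_image_le_of P _ (phi 2) _ (fun x => -x) (hX 2 (by decide))
        (by intro p; simp [phi])
    · exact card_image_le_of P _ (phi 1) _ (fun x => 2 * x) (hX 1 (by decide))
        (by intro p; simp [phi]; ring)
  · refine ⟨fun p => p.1 + p.2, fun p => p.1 - p.2, ?_, ?_, ?_, ?_⟩
    · intro s hs t ht h
      apply hinj s hs t ht
      simp [phi] at h ⊢; omega
    · exact card_image_le_of P _ (phi 3) _ id (hX 3 (by decide)) (by intro p; simp [phi])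
    · exact card_image_le_of P _ (phi 2) _ id (hX 2 (by decide))
        (by intro p; simp [phi])
    · exact card_image_le_of P _ (phi 0) _ (fun x => 2 * x) (hX 0 (by decide))
        (by intro p; simp [phi]; ring)
  · refine ⟨fun p => p.1, fun p => p.2, ?_, ?_, ?_, ?_⟩
    · intro s hs t ht h
      apply hinj s hs t ht
      simp [phi] at h ⊢; omega
    · exact card_image_le_of P _ (phi 0) _ id (hX 0 (by decide)) (by intro p; simp [phi])
    · exact card_image_le_of P _ (phi 1) _ id (hX 1 (by decide))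
        (by intro p; simp [phi])
    · exact card_image_le_of P _ (phi 3) _ id (hX 3 (by decide))
        (by intro p; simp [phi])
  · refine ⟨fun p => p.1, fun p => -p.2, ?_, ?_, ?_, ?_⟩
    · intro s hs t ht h
      apply hinj s hs t ht
      simp [phi] at h ⊢; omega
    · exact card_image_le_of P _ (phi 0) _ id (hX 0 (by decide)) (by intro p; simp [phi])
    · exact card_image_le_of P _ (phi 1) _ (fun x => -x) (hX 1 (by decide))
        (by intro p; simp [phi])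
    · exact card_image_le_of P _ (phi 2) _ id (hX 2 (by decide))
        (by intro p; simp [phi]; ring)

theorem kt_dir (k : Fin 4) (P : Finset (ℤ × ℤ)) (X : Fin 4 → Finset ℤ)
    (hinj : ∀ p ∈ P, ∀ q ∈ P, phi k p = phi k q → p = q)
    (hX : ∀ j, j ≠ k → ∀ p ∈ P, phi j p ∈ X j) :
    (P.card : ℝ) ^ 6 ≤ ((X (![3, 3, 0, 0] k)).card : ℝ) ^ 4 *
      ((X (![2, 2, 1, 1] k)).card : ℝ) ^ 4 * ((X (![1, 0, 3, 2] k)).card : ℝ) ^ 3 := by
  obtain ⟨a, b, h0, h1, h2, h3⟩ := reduce_dir k P X hinj hX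
  refine (katz_tao P a b h0).trans ?_
  gcongr

theorem amgm4 (a b c d : ℝ) (ha : 0 ≤ a) (hb : 0 ≤ b) (hc : 0 ≤ c) (hd : 0 ≤ d) :
    a ^ 8 * b ^ 8 * c ^ 3 * d ^ 3 ≤ 8 ^ 16 * 3 ^ 6 * ((a + b + c + d) / 22) ^ 22 := by
  have h := Real.geom_mean_le_arith_mean4_weighted (w₁ := 8 / 22) (w₂ := 8 / 22) (w₃ := 3 / 22)
    (w₄ := 3 / 22) (p₁ := a / 8) (p₂ := b / 8) (p₃ := c / 3) (p₄ := d / 3)
    (by norm_num) (by norm_num) (by norm_num) (by norm_num)
    (by positivity) (by positivity) (by positivity) (by positivity) (by norm_num)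
  have e : ∀ (x : ℝ) (k : ℕ), 0 ≤ x → (x ^ ((k : ℝ) / 22)) ^ 22 = x ^ k := by
    intro x k hx
    rw [← Real.rpow_natCast, ← Real.rpow_mul hx, ← Real.rpow_natCast]
    congr 1
    push_cast
    ring
  have h2 := pow_le_pow_left₀ (by positivity) h 22
  have e8a := e (a / 8) 8 (by positivity)
  have e8b := e (b / 8) 8 (by positivity)
  have e3c := e (c / 3) 3 (by positivity)
  have e3d := e (d / 3) 3 (by positivity)
  push_cast at e8a e8b e3c e3d
  rw [mul_pow, mul_pow, mul_pow, e8a, e8b, e3c, e3d] at h2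
  have e4 : 8 / 22 * (a / 8) + 8 / 22 * (b / 8) + 3 / 22 * (c / 3) + 3 / 22 * (d / 3) =
      (a + b + c + d) / 22 := by ring
  rw [e4] at h2
  generalize ((a + b + c + d) / 22) ^ 22 = z at h2 ⊢
  have : a ^ 8 * b ^ 8 * c ^ 3 * d ^ 3 =
      8 ^ 16 * 3 ^ 6 * ((a / 8) ^ 8 * (b / 8) ^ 8 * (c / 3) ^ 3 * (d / 3) ^ 3) := by ring
  rw [this]
  gcongr

theorem system_bound (P : Fin 4 → Finset (ℤ × ℤ)) (X : Fin 4 → Finset ℤ)
    (hinj : ∀ k, ∀ p ∈ P k, ∀ q ∈ P k, phi k p = phi k q → p = q)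
    (hX : ∀ k j, j ≠ k → ∀ p ∈ P k, phi j p ∈ X j) (v : ℝ) (hv : 0 ≤ v)
    (h2 : v ≤ (P 2).card) (h3 : v ≤ (P 3).card) :
    v ^ 6 ≤ 8 ^ 8 * 3 ^ 3 * (((∑ k, (X k).card : ℕ) : ℝ) / 22) ^ 11 := by
  have k2 := kt_dir 2 (P 2) X (hinj 2) (hX 2)
  have k3 := kt_dir 3 (P 3) X (hinj 3) (hX 3)
  simp only [Matrix.cons_val_zero, Matrix.cons_val_one, Matrix.cons_val] at k2 k3
  simp only [Fin.sum_univ_four, Nat.cast_add]
  set x0 : ℝ := ((X 0).card : ℝ)
  set x1 : ℝ := ((X 1).card : ℝ)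
  set x2 : ℝ := ((X 2).card : ℝ)
  set x3 : ℝ := ((X 3).card : ℝ)
  have p0 : 0 ≤ x0 := Nat.cast_nonneg _
  have p1 : 0 ≤ x1 := Nat.cast_nonneg _
  have p2 : 0 ≤ x2 := Nat.cast_nonneg _
  have p3 : 0 ≤ x3 := Nat.cast_nonneg _
  have hm := amgm4 x0 x1 x2 x3 p0 p1 p2 p3
  apply le_of_pow_le_pow_left₀ (n := 2) (by norm_num) (by positivity)
  generalize (x0 + x1 + x2 + x3) / 22 = z at hm ⊢
  calc (v ^ 6) ^ 2 = v ^ 6 * v ^ 6 := by ring
    _ ≤ ((P 2).card : ℝ) ^ 6 * ((P 3).card : ℝ) ^ 6 := by gcongr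
    _ ≤ (x0 ^ 4 * x1 ^ 4 * x3 ^ 3) * (x0 ^ 4 * x1 ^ 4 * x2 ^ 3) := by gcongr
    _ = x0 ^ 8 * x1 ^ 8 * x2 ^ 3 * x3 ^ 3 := by ring
    _ ≤ _ := hm
    _ = _ := by ring

theorem deficiency_bound {n : ℕ} (hn : 1 ≤ n) :
    ∃ t : ℕ, upperIR (queensGraph n) + t + 2 = 6 * n ∧
      ∀ v : ℝ, 0 ≤ v → v + t + 1 ≤ 2 * n →
        v ^ 6 ≤ 8 ^ 8 * 3 ^ 3 * ((t : ℝ) / 44) ^ 11 := by
  obtain ⟨S, hS, hc⟩ := exists_IR (queensGraph n)
  obtain ⟨O, E, P, N, t, ht, hsum, i1, i2, m1, m2, c1, c2⟩ := structure_lemma hn S hS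
  refine ⟨t, by omega, fun v hv hvt => ?_⟩
  have key : ∀ Q : Fin 4 → Finset (ℤ × ℤ), (∀ k, (rng n k).card ≤ (Q k).card + t) →
      v ≤ (Q 2).card ∧ v ≤ (Q 3).card := by
    intro Q hQ
    have h2 := hQ 2
    have h3 := hQ 3
    rw [card_rng n hn] at h2 h3
    simp only [Matrix.cons_val] at h2 h3
    have h2' : (2 * n : ℝ) ≤ (Q 2).card + t + 1 := by
      have : 2 * n ≤ (Q 2).card + t + 1 := by omega
      exact_mod_cast this
    have h3' : (2 * n : ℝ) ≤ (Q 3).card + t + 1 := by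
      have : 2 * n ≤ (Q 3).card + t + 1 := by omega
      exact_mod_cast this
    refine ⟨by linarith, by linarith⟩
  obtain ⟨a2, a3⟩ := key P c1
  obtain ⟨b2, b3⟩ := key N c2
  have s1 := system_bound P O i1 m1 v hv a2 a3
  have s2 := system_bound N E i2 m2 v hv b2 b3
  have ht' : (t : ℝ) = ((∑ k, (O k).card : ℕ) : ℝ) + ((∑ k, (E k).card : ℕ) : ℝ) := by
    rw [ht]; push_cast; ring
  rcases le_total ((∑ k, (O k).card : ℕ) : ℝ) ((∑ k, (E k).card : ℕ) : ℝ) with h | h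
  · refine s1.trans ?_
    gcongr 8 ^ 8 * 3 ^ 3 * ?_ ^ 11
    linarith
  · refine s2.trans ?_
    gcongr 8 ^ 8 * 3 ^ 3 * ?_ ^ 11
    linarith

theorem upper_main (n : ℕ) (hn : 8200 ≤ n) :
    (upperIR (queensGraph n) : ℝ) ≤ 6 * n - 10 * (n : ℝ) ^ ((6 : ℝ) / 11) := by
  obtain ⟨t, ht, h⟩ := deficiency_bound (n := n) (by omega)
  have hn' : (8200 : ℝ) ≤ n := by exact_mod_cast hn
  have hpos : (0 : ℝ) < n := by linarith
  set y : ℝ := (n : ℝ) ^ ((1 : ℝ) / 11) with hy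
  have hy0 : 0 < y := Real.rpow_pos_of_pos hpos _
  have hy11 : y ^ 11 = n := by
    rw [hy, ← Real.rpow_natCast, ← Real.rpow_mul hpos.le]; norm_num
  have hy6 : (n : ℝ) ^ ((6 : ℝ) / 11) = y ^ 6 := by
    rw [hy, ← Real.rpow_natCast, ← Real.rpow_mul hpos.le]; norm_num
  rw [hy6]
  have hylb : (2.268 : ℝ) ≤ y := by
    by_contra hc
    have : y ^ 11 < (2.268 : ℝ) ^ 11 := by
      apply pow_lt_pow_left₀ (not_le.1 hc) hy0.le (by norm_num)
    rw [hy11] at this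
    norm_num at this
    linarith
  have hy5 : (60 : ℝ) ≤ y ^ 5 := by
    calc (60 : ℝ) ≤ (2.268 : ℝ) ^ 5 := by norm_num
      _ ≤ y ^ 5 := by gcongr
  have ht' : (upperIR (queensGraph n) : ℝ) + t + 2 = 6 * n := by exact_mod_cast ht
  by_contra hc
  have hlt : (t : ℝ) + 2 < 10 * y ^ 6 := by linarith
  have hy6p : 0 < y ^ 6 := by positivity
  have hsmall : 10 * y ^ 6 ≤ 1 / 6 * n := by
    rw [← hy11]
    have : y ^ 11 = y ^ 6 * y ^ 5 := by ring
    nlinarith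
  have h1 := h (11 / 6 * n) (by positivity) (by linarith)
  have h2 : ((t : ℝ) / 44) ^ 11 ≤ (10 * y ^ 6 / 44) ^ 11 := by
    gcongr
    linarith
  have h3 : (10 * y ^ 6 / 44) ^ 11 = (10 / 44 : ℝ) ^ 11 * (n : ℝ) ^ 6 := by
    rw [← hy11]; ring
  have h4 : (11 / 6 * (n : ℝ)) ^ 6 = (11 / 6 : ℝ) ^ 6 * (n : ℝ) ^ 6 := by ring
  have h5 : (0 : ℝ) < (n : ℝ) ^ 6 := by positivity
  have h6 : 8 ^ 8 * 3 ^ 3 * (10 / 44 : ℝ) ^ 11 < (11 / 6 : ℝ) ^ 6 := by norm_num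
  have := mul_lt_mul_of_pos_right h6 h5
  rw [h3] at h2
  nlinarith

end Pool.Agent.P.MP_c18ee8_co
end

-- part Pool.Agent.P.MP_c18ee8_co.KTf
section

/-! The bound for the queens graph. -/

namespace Pool.Agent.P.MP_c18ee8_co.KT

open Finset Real

theorem pow_le_exp {x m : ℝ} (hx : 0 ≤ x) (hm : 0 < m) (k : ℕ) :
    x ^ k ≤ m ^ k * exp (k * (x / m - 1)) := by
  rw [exp_nat_mul, ← mul_pow]
  refine pow_le_pow_left₀ hx ?_ k
  have := add_one_le_exp (x / m - 1)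
  rw [← div_le_iff₀' hm]
  linarith

theorem amgm {x0 x1 x2 x3 u : ℝ} {a c : ℕ} (ha : 0 < a) (hc : 0 < c) (h0 : 0 ≤ x0) (h1 : 0 ≤ x1)
    (h2 : 0 ≤ x2) (h3 : 0 ≤ x3) (hu : 0 < u) (h : x0 + x1 + x2 + x3 ≤ (2 * a + 2 * c) * u) :
    x0 ^ a * x1 ^ a * x2 ^ c * x3 ^ c ≤ (a * u) ^ a * (a * u) ^ a * (c * u) ^ c * (c * u) ^ c := by
  have ha' : (0 : ℝ) < a := by exact_mod_cast ha
  have hc' : (0 : ℝ) < c := by exact_mod_cast hc
  have e0 := pow_le_exp h0 (mul_pos ha' hu) a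
  have e1 := pow_le_exp h1 (mul_pos ha' hu) a
  have e2 := pow_le_exp h2 (mul_pos hc' hu) c
  have e3 := pow_le_exp h3 (mul_pos hc' hu) c
  have e : exp (a * (x0 / (a * u) - 1)) * exp (a * (x1 / (a * u) - 1)) *
      exp (c * (x2 / (c * u) - 1)) * exp (c * (x3 / (c * u) - 1)) ≤ 1 := by
    rw [← exp_add, ← exp_add, ← exp_add, exp_le_one_iff]
    have : a * (x0 / (a * u) - 1) + a * (x1 / (a * u) - 1) + c * (x2 / (c * u) - 1) +
        c * (x3 / (c * u) - 1) = (x0 + x1 + x2 + x3 - (2 * a + 2 * c) * u) / u := by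
      field_simp; ring
    rw [this]
    exact div_nonpos_of_nonpos_of_nonneg (by linarith) hu.le
  calc x0 ^ a * x1 ^ a * x2 ^ c * x3 ^ c ≤ _ :=
      mul_le_mul (mul_le_mul (mul_le_mul e0 e1 (by positivity) (by positivity)) e2 (by positivity)
        (by positivity)) e3 (by positivity) (by positivity)
    _ = (a * u) ^ a * (a * u) ^ a * (c * u) ^ c * (c * u) ^ c *
      (exp (a * (x0 / (a * u) - 1)) * exp (a * (x1 / (a * u) - 1)) *
      exp (c * (x2 / (c * u) - 1)) * exp (c * (x3 / (c * u) - 1))) := by ring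
    _ ≤ _ := mul_le_of_le_one_right (by positivity) e

section

variable {a c q : ℕ} (h : ∀ F : Finset (ℤ × ℤ),
    Set.InjOn (fun p : ℤ × ℤ => p.1 - p.2) F → (F.card : ℝ) ^ q ≤
      ((F.image fun p => p.1).card : ℝ) ^ a * ((F.image fun p => p.2).card : ℝ) ^ a *
        ((F.image fun p => p.1 + p.2).card : ℝ) ^ c)
include h

theorem dir (k : Fin 4) (P : Finset (ℤ × ℤ)) (X : Fin 4 → Finset ℤ)
    (hinj : ∀ p ∈ P, ∀ q ∈ P, phi k p = phi k q → p = q)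
    (hX : ∀ j, j ≠ k → ∀ p ∈ P, phi j p ∈ X j) :
    (P.card : ℝ) ^ q ≤ ((X (![3, 3, 0, 0] k)).card : ℝ) ^ a *
      ((X (![2, 2, 1, 1] k)).card : ℝ) ^ a * ((X (![1, 0, 3, 2] k)).card : ℝ) ^ c := by
  obtain ⟨f, g, h0, h1, h2, h3⟩ := reduce_dir k P X hinj hX
  have := h (P.image fun p => (f p, g p)) (by
    intro s hs t ht e
    obtain ⟨s, hs', rfl⟩ := mem_image.1 hs
    obtain ⟨t, ht', rfl⟩ := mem_image.1 ht
    rw [h0 s hs' t ht' e])
  rw [card_image_of_injOn fun s hs t ht e => h0 s hs t ht (by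
    rw [(Prod.mk.inj e).1, (Prod.mk.inj e).2]), image_image, image_image, image_image] at this
  refine this.trans ?_
  gcongr (?_ : ℝ) ^ a * (?_ : ℝ) ^ a * (?_ : ℝ) ^ c
  · exact_mod_cast h1
  · exact_mod_cast h2
  · exact_mod_cast h3

theorem sys (ha : 0 < a) (hc : 0 < c) (P : Fin 4 → Finset (ℤ × ℤ)) (X : Fin 4 → Finset ℤ)
    (hinj : ∀ k, ∀ p ∈ P k, ∀ q ∈ P k, phi k p = phi k q → p = q)
    (hX : ∀ k j, j ≠ k → ∀ p ∈ P k, phi j p ∈ X j) {v u : ℝ} (hv : 0 ≤ v) (hu : 0 < u)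
    (h2 : v ≤ (P 2).card) (h3 : v ≤ (P 3).card)
    (hs : ((∑ k, (X k).card : ℕ) : ℝ) ≤ (4 * a + 2 * c) * u) :
    v ^ q ≤ (2 * a * u) ^ (2 * a) * (c * u) ^ c := by
  have k2 := dir h 2 (P 2) X (hinj 2) (hX 2)
  have k3 := dir h 3 (P 3) X (hinj 3) (hX 3)
  simp only [Matrix.cons_val] at k2 k3
  simp only [Fin.sum_univ_four, Nat.cast_add] at hs
  have hm := amgm (a := 2 * a) (c := c) (u := u) (by omega) hc (Nat.cast_nonneg (X 0).card)
    (Nat.cast_nonneg (X 1).card) (Nat.cast_nonneg (X 2).card) (Nat.cast_nonneg (X 3).card) hu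
    (by push_cast; linarith)
  push_cast at hm
  apply le_of_pow_le_pow_left₀ (n := 2) (by norm_num) (by positivity)
  calc (v ^ q) ^ 2 = v ^ q * v ^ q := by ring
    _ ≤ ((P 2).card : ℝ) ^ q * ((P 3).card : ℝ) ^ q := by gcongr
    _ ≤ _ := mul_le_mul k2 k3 (by positivity) (by positivity)
    _ = _ := by ring
    _ ≤ _ := hm
    _ = _ := by ring

theorem defi (ha : 0 < a) (hc : 0 < c) {n : ℕ} (hn : 1 ≤ n) :
    ∃ t : ℕ, upperIR (queensGraph n) + t + 2 = 6 * n ∧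
      ∀ v u : ℝ, 0 ≤ v → 0 < u → v + t + 1 ≤ 2 * n → t ≤ (8 * a + 4 * c) * u →
        v ^ q ≤ (2 * a * u) ^ (2 * a) * (c * u) ^ c := by
  obtain ⟨S, hS, hc'⟩ := exists_IR (queensGraph n)
  obtain ⟨O, E, P, N, t, ht, hsum, i1, i2, m1, m2, c1, c2⟩ := structure_lemma hn S hS
  refine ⟨t, by omega, fun v u hv hu hvt htu => ?_⟩
  have key : ∀ Q : Fin 4 → Finset (ℤ × ℤ), (∀ k, (rng n k).card ≤ (Q k).card + t) →
      v ≤ (Q 2).card ∧ v ≤ (Q 3).card := by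
    intro Q hQ
    have h2 := hQ 2
    have h3 := hQ 3
    rw [card_rng n hn] at h2 h3
    simp only [Matrix.cons_val] at h2 h3
    have h2' : (2 * n : ℝ) ≤ (Q 2).card + t + 1 := by
      have : 2 * n ≤ (Q 2).card + t + 1 := by omega
      exact_mod_cast this
    have h3' : (2 * n : ℝ) ≤ (Q 3).card + t + 1 := by
      have : 2 * n ≤ (Q 3).card + t + 1 := by omega
      exact_mod_cast this
    refine ⟨by linarith, by linarith⟩
  obtain ⟨a2, a3⟩ := key P c1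
  obtain ⟨b2, b3⟩ := key N c2
  have ht' : (t : ℝ) = ((∑ k, (O k).card : ℕ) : ℝ) + ((∑ k, (E k).card : ℕ) : ℝ) := by
    rw [ht]; push_cast; ring
  rcases le_total ((∑ k, (O k).card : ℕ) : ℝ) ((∑ k, (E k).card : ℕ) : ℝ) with e | e
  · exact sys h ha hc P O i1 m1 hv hu a2 a3 (by linarith)
  · exact sys h ha hc N E i2 m2 hv hu b2 b3 (by linarith)

end

theorem upper_new (n : ℕ) (hn : 50000 ≤ n) :
    (upperIR (queensGraph n) : ℝ) ≤ 6 * n - 10 * (n : ℝ) ^ ((67 : ℝ) / 122) := by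
  obtain ⟨t, ht, h⟩ := defi A.main (by norm_num) (by norm_num) (n := n) (by omega)
  have hn' : (50000 : ℝ) ≤ n := by exact_mod_cast hn
  have hpos : (0 : ℝ) < n := by linarith
  set y : ℝ := (n : ℝ) ^ ((1 : ℝ) / 122) with hy
  have hy0 : 0 < y := rpow_pos_of_pos hpos _
  have hy1 : y ^ 122 = n := by
    rw [hy, ← rpow_natCast, ← rpow_mul hpos.le]; norm_num
  have hy2 : (n : ℝ) ^ ((67 : ℝ) / 122) = y ^ 67 := by
    rw [hy, ← rpow_natCast, ← rpow_mul hpos.le]; norm_num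
  rw [hy2]
  have hy3 : (131 : ℝ) ≤ y ^ 55 := by
    refine le_of_pow_le_pow_left₀ (n := 122) (by norm_num) (by positivity) ?_
    rw [← pow_mul, mul_comm, pow_mul, hy1]
    exact le_trans (by norm_num) (pow_le_pow_left₀ (by norm_num) hn' 55)
  have ht' : (upperIR (queensGraph n) : ℝ) + t + 2 = 6 * n := by exact_mod_cast ht
  by_contra hc
  have hz : 0 < y ^ 67 := by positivity
  have hn2 : (n : ℝ) = y ^ 67 * y ^ 55 := by rw [← hy1, ← pow_add]
  have hz2 : (y ^ 67) ^ 122 = (n : ℝ) ^ 67 := by rw [← pow_mul, mul_comm, pow_mul, hy1]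
  generalize y ^ 67 = z at *
  have h0 : 131 * z ≤ n := by rw [hn2]; nlinarith
  have h1 := h (252 / 131 * n) (5 / 244 * z) (by positivity) (by positivity) (by linarith)
    (by push_cast; linarith)
  have h2 : (2 * ((46 : ℕ) : ℝ) * (5 / 244 * z)) ^ (2 * 46) * (((30 : ℕ) : ℝ) * (5 / 244 * z)) ^ 30 =
      (92 * 5 / 244) ^ 92 * (30 * 5 / 244) ^ 30 * z ^ 122 := by
    rw [show (2 * ((46 : ℕ) : ℝ) * (5 / 244 * z)) = 92 * 5 / 244 * z by push_cast; ring,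
      show (((30 : ℕ) : ℝ) * (5 / 244 * z)) = 30 * 5 / 244 * z by push_cast; ring, mul_pow, mul_pow,
      show z ^ 122 = z ^ (2 * 46) * z ^ 30 by rw [← pow_add]]
    ac_rfl
  rw [h2, hz2, mul_pow] at h1
  exact absurd (le_of_mul_le_mul_right h1 (by positivity)) (by norm_num)

end Pool.Agent.P.MP_c18ee8_co.KT
end
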